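import Pool.Agent.Lib.MP_5e7226_co.PS.Body

/-! Convex bodies in three-dimensional space with a planar shadow boundary. -/

set_option autoImplicit false

open Set Filter Topology

namespace Pool.Agent.Lib.MP_5e7226_co.PS

lemma convex_translate {W : Type*} [AddCommGroup W] [Module ℝ W] {L : Set W} (hc : Convex ℝ L)
    (a : W) : Convex ℝ ((fun x => x + a) '' L) := by
  have h := hc.translate a
  have e : (fun x => x + a) '' L = (fun x => a + x) '' L := by
    apply image_congr
    intro x _
    exact add_comm x a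
  rwa [e]

/-- translation invariance of illumination -/
lemma illum_translate {W : Type*} [AddCommGroup W] [Module ℝ W] [TopologicalSpace W]
    [ContinuousAdd W] {L : Set W} {N : ℕ} (a : W)
    (h : Illum ((fun x => x + a) '' L) N) : Illum L N := by
  obtain ⟨d, hd⟩ := h
  refine ⟨d, fun y hy => ?_⟩
  obtain ⟨i, t, ht, hi⟩ := hd (y + a) ⟨y, hy, rfl⟩
  refine ⟨i, t, ht, ?_⟩
  have h1 : (fun x => x + a) '' interior L = interior ((fun x => x + a) '' L) :=
    (Homeomorph.addRight a).image_interior L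
  rw [← h1] at hi
  obtain ⟨z, hz, hze⟩ := hi
  have : z = y + t • d i := by
    simp only at hze
    have h2 : z + a = (y + t • d i) + a := by rw [hze]; abel
    exact add_right_cancel h2
  rwa [← this]

/-- coordinates adapted to a functional `φ` and a vector `e` with `φ e = 1` -/
theorem exists_coords {W : Type*} [NormedAddCommGroup W] [NormedSpace ℝ W]
    [FiniteDimensional ℝ W] (hdim : Module.finrank ℝ W = 3) (φ : W →ₗ[ℝ] ℝ) (e : W)
    (he : φ e = 1) :
    ∃ Φ : W ≃ₗ[ℝ] (ℝ × ℝ) × ℝ, (∀ f, (Φ f).2 = φ f) ∧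
      ∀ f (c : ℝ), (Φ (f + c • e)).1 = (Φ f).1 := by
  have hsurj : LinearMap.range φ = ⊤ := by
    rw [LinearMap.range_eq_top]
    intro r
    exact ⟨r • e, by rw [map_smul, he]; simp⟩
  have hker : Module.finrank ℝ (LinearMap.ker φ) = 2 := by
    have h := LinearMap.finrank_range_add_finrank_ker φ
    rw [hsurj, finrank_top, Module.finrank_self, hdim] at h
    omega
  let ψ : LinearMap.ker φ ≃ₗ[ℝ] ℝ × ℝ := LinearEquiv.ofFinrankEq _ _ (by rw [hker]; simp)
  have hmem : ∀ f : W, f - φ f • e ∈ LinearMap.ker φ := by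
    intro f
    rw [LinearMap.mem_ker, map_sub, map_smul, he]; simp
  let π : W →ₗ[ℝ] LinearMap.ker φ :=
    { toFun := fun f => ⟨f - φ f • e, hmem f⟩
      map_add' := fun f g => by
        ext
        simp only [map_add, add_smul, Submodule.coe_add]
        abel
      map_smul' := fun c f => by
        ext
        simp only [map_smul, smul_eq_mul, RingHom.id_apply, SetLike.val_smul, smul_sub, mul_smul] }
  have hπ : ∀ f, (π f : W) = f - φ f • e := fun f => rfl
  let Φ : W ≃ₗ[ℝ] (ℝ × ℝ) × ℝ :=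
    { toFun := fun f => (ψ (π f), φ f)
      map_add' := fun f g => by simp
      map_smul' := fun c f => by simp
      invFun := fun y => (ψ.symm y.1 : W) + y.2 • e
      left_inv := fun f => by
        simp only [LinearEquiv.symm_apply_apply, hπ]
        abel
      right_inv := fun y => by
        have h1 : φ (ψ.symm y.1 : W) = 0 := (ψ.symm y.1).2
        have h2 : φ ((ψ.symm y.1 : W) + y.2 • e) = y.2 := by
          rw [map_add, h1, map_smul, he]; simp
        have h3 : π ((ψ.symm y.1 : W) + y.2 • e) = ψ.symm y.1 := by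
          apply Subtype.ext
          rw [hπ, h2]; abel
        refine Prod.ext ?_ ?_
        · simp only [h3, LinearEquiv.apply_symm_apply]
        · exact h2 }
  refine ⟨Φ, fun f => rfl, fun f c => ?_⟩
  have : π (f + c • e) = π f := by
    apply Subtype.ext
    rw [hπ, hπ, map_add, map_smul, he]
    simp only [smul_eq_mul, mul_one, add_smul]
    abel
  change ψ (π (f + c • e)) = ψ (π f)
  rw [this]

/-- the coordinate-free form -/
theorem illum_of_shadow' {W : Type*} [NormedAddCommGroup W] [NormedSpace ℝ W]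
    [FiniteDimensional ℝ W] (hdim : Module.finrank ℝ W = 3) {L : Set W} (hc : Convex ℝ L)
    (hk : IsCompact L) (hi : (interior L).Nonempty) (φ : W →ₗ[ℝ] ℝ) (e : W) (he : φ e = 1) (m : ℝ)
    (hs : ∀ f ∈ L, f + (m - φ f) • e ∈ L) : Illum L 8 := by
  obtain ⟨Φ, h1, h2⟩ := exists_coords hdim φ e he
  let Ψ := Φ.toContinuousLinearEquiv
  have hΨ : ∀ x, Ψ x = Φ x := fun x => rfl
  apply Illum.of_image Ψ
  apply illum_translate (((0 : ℝ × ℝ), -m) : (ℝ × ℝ) × ℝ)
  have hcomp : (fun x => x + (((0 : ℝ × ℝ), -m) : (ℝ × ℝ) × ℝ)) '' (Ψ '' L) =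
      (fun f => Ψ f + (((0 : ℝ × ℝ), -m) : (ℝ × ℝ) × ℝ)) '' L := by
    rw [← image_comp]; rfl
  apply illum_of_shadow
  · exact convex_translate (hc.linear_image Ψ.toLinearMap) _
  · exact (hk.image Ψ.continuous).image (continuous_id.add continuous_const)
  · obtain ⟨f, hf⟩ := hi
    have h3 := Ψ.toHomeomorph.isOpenMap.image_interior_subset L
    have h4 := (Homeomorph.addRight (((0 : ℝ × ℝ), -m) : (ℝ × ℝ) × ℝ)).isOpenMap.image_interior_subset
      (Ψ '' L)
    exact ⟨_, h4 ⟨_, h3 ⟨f, hf, rfl⟩, rfl⟩⟩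
  · intro x z hxz
    rw [hcomp] at hxz ⊢
    obtain ⟨f, hf, hfe⟩ := hxz
    refine ⟨_, hs f hf, ?_⟩
    have e1 : (Ψ (f + (m - φ f) • e)).1 = (Ψ f).1 := h2 f _
    have e2 : (Ψ (f + (m - φ f) • e)).2 = m := by
      rw [hΨ, h1, map_add, map_smul, he]; simp
    have e3 : (Ψ f).1 = x := by
      have := congrArg Prod.fst hfe
      simpa using this
    refine Prod.ext ?_ ?_
    · simp only [Prod.fst_add, e1, e3, add_zero]
    · simp only [Prod.snd_add, e2, add_neg_cancel]

/-- the separation form, for a body containing the origin in its interior -/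
theorem sep_of_shadow {V : Type*} [NormedAddCommGroup V] [NormedSpace ℝ V]
    [FiniteDimensional ℝ V] (hdim : Module.finrank ℝ V = 3) {K : Set V} (hconv : Convex ℝ K)
    (hK : IsCompact K) (h0 : (0 : V) ∈ interior K) (e : V →L[ℝ] ℝ)
    (h : (∃ v, e v ≠ 0 ∧ ∀ x ∈ K, ∃ t : ℝ, x + t • v ∈ K ∧ e (x + t • v) = 0) ∨
      (∃ c, e c ≠ 0 ∧ ∀ x ∈ K, x ≠ c → ∃ t : ℝ, c + t • (x - c) ∈ K ∧
        e (c + t • (x - c)) = 0)) : Sep K 8 := by
  apply Sep.of_illum_polar hK h0
  have hdual : Module.finrank ℝ (V →L[ℝ] ℝ) = 3 := by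
    rw [← hdim, ← Subspace.dual_finrank_eq (K := ℝ) (V := V)]
    exact (LinearMap.toContinuousLinearMap (𝕜 := ℝ) (E := V) (F' := ℝ)).symm.finrank_eq
  have hcpt : IsCompact (polarBody K) :=
    Metric.isCompact_of_isClosed_isBounded (polarBody_closed K) (polarBody_bounded h0)
  have hint : (interior (polarBody K)).Nonempty := ⟨0, polarBody_zero_mem_interior hK⟩
  -- the evaluation functional
  have hφ : ∀ c : V, e c ≠ 0 → ∃ φ : (V →L[ℝ] ℝ) →ₗ[ℝ] ℝ, (∀ f, φ f = f c / e c) := by
    intro c _
    refine ⟨(1 / e c) • (ContinuousLinearMap.apply ℝ ℝ c).toLinearMap, fun f => ?_⟩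
    simp
    ring
  rcases h with ⟨v, hv, hvK⟩ | ⟨c, hc, hcK⟩
  · obtain ⟨φ, hφ⟩ := hφ v hv
    refine illum_of_shadow' hdual (polarBody_convex K) hcpt hint φ e (by rw [hφ, div_self hv]) 0 ?_
    intro f hf x hx
    obtain ⟨t, ht, hte⟩ := hvK x hx
    have h1 := hf _ ht
    rw [map_add, map_smul, smul_eq_mul] at h1 hte
    simp only [FunLike.coe_add, FunLike.coe_smul, Pi.add_apply, Pi.smul_apply, smul_eq_mul, hφ]
    have h2 : t = -(e x) / e v := by field_simp; linarith
    have h3 : (0 - f v / e v) * e x = t * f v := by rw [h2]; ring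
    rw [h3]; exact h1
  · obtain ⟨φ, hφ⟩ := hφ c hc
    refine illum_of_shadow' hdual (polarBody_convex K) hcpt hint φ e (by rw [hφ, div_self hc])
      (1 / e c) ?_
    -- `s x = e x / e c < 1` on `K \ {c}`
    have hs : ∀ x ∈ K, x ≠ c → e x / e c < 1 := by
      have hrel : ∀ x ∈ K, x ≠ c → ∃ t : ℝ, c + t • (x - c) ∈ K ∧ 1 + t * (e x / e c - 1) = 0 := by
        intro x hx hne
        obtain ⟨t, ht, hte⟩ := hcK x hx hne
        refine ⟨t, ht, ?_⟩
        rw [map_add, map_smul, map_sub, smul_eq_mul] at hte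
        field_simp
        linarith
      intro x hx hne
      by_contra hge
      push Not at hge
      obtain ⟨t, ht, hte⟩ := hrel x hx hne
      have hgt : 1 < e x / e c := by
        rcases eq_or_lt_of_le hge with h1 | h1
        · rw [← h1] at hte; norm_num at hte
        · exact h1
      -- a nonzero vector in the kernel of `e`
      obtain ⟨u, hu0, hue⟩ : ∃ u : V, u ≠ 0 ∧ e u = 0 := by
        have hk : Module.finrank ℝ (LinearMap.ker (e : V →ₗ[ℝ] ℝ)) ≠ 0 := by
          have h1 := LinearMap.finrank_range_add_finrank_ker (e : V →ₗ[ℝ] ℝ)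
          have h2 : Module.finrank ℝ (LinearMap.range (e : V →ₗ[ℝ] ℝ)) ≤ 1 := by
            have := Submodule.finrank_le (LinearMap.range (e : V →ₗ[ℝ] ℝ))
            rwa [Module.finrank_self] at this
          rw [hdim] at h1
          omega
        have h2 : LinearMap.ker (e : V →ₗ[ℝ] ℝ) ≠ ⊥ := by
          intro hb
          apply hk
          rw [hb, finrank_bot]
        obtain ⟨u, hu, hu0⟩ := Submodule.exists_mem_ne_zero_of_ne_bot h2
        exact ⟨u, hu0, by simpa using hu⟩
      have hcont : Continuous (fun r : ℝ => r • u) := by fun_prop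
      have hev : ∀ᶠ r : ℝ in 𝓝 0, r • u ∈ interior K := by
        apply hcont.continuousAt.eventually_mem
        rw [zero_smul]
        exact isOpen_interior.mem_nhds h0
      rw [Metric.eventually_nhds_iff] at hev
      obtain ⟨r, hr, hr'⟩ := hev
      have hm : ∀ q : ℝ, |q| < r → q • u ∈ K := fun q hq =>
        interior_subset (hr' (by rw [Real.dist_eq, sub_zero]; exact hq))
      set s : ℝ := e x / e c with hs
      have hs0 : 0 < s := by linarith
      have hsc : s * e c = e x := by rw [hs, div_mul_cancel₀ _ hc]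
      have hw : ∀ q : ℝ, |q| < r → (1 - 1 / s) • (q • u) + (1 / s) • x = c := by
        intro q hq
        by_contra hne'
        have hmem : (1 - 1 / s) • (q • u) + (1 / s) • x ∈ K :=
          hconv (hm q hq) hx (by rw [sub_nonneg, div_le_one hs0]; linarith) (by positivity)
            (by ring)
        obtain ⟨t', _, ht'⟩ := hrel _ hmem hne'
        rw [map_add, map_smul, map_smul, map_smul, hue, smul_eq_mul, smul_eq_mul, smul_eq_mul,
          mul_zero, mul_zero, zero_add, ← hsc, one_div, inv_mul_cancel_left₀ hs0.ne', div_self hc,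
          sub_self, mul_zero, add_zero] at ht'
        exact one_ne_zero ht'
      have w1 := hw (r / 2) (by rw [abs_of_pos (by positivity)]; linarith)
      have w2 := hw 0 (by rw [abs_zero]; exact hr)
      rw [zero_smul, smul_zero, zero_add] at w2
      rw [w2, add_eq_right] at w1
      have h3 : (1 - 1 / s) ≠ 0 := by
        have : 1 / s < 1 := by rw [div_lt_one hs0]; exact hgt
        linarith
      rcases smul_eq_zero.1 w1 with h4 | h4
      · exact h3 h4
      · rcases smul_eq_zero.1 h4 with h5 | h5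
        · linarith
        · exact hu0 h5
    intro f hf x hx
    simp only [FunLike.coe_add, FunLike.coe_smul, Pi.add_apply, Pi.smul_apply, smul_eq_mul, hφ]
    by_cases hxc : x = c
    · subst hxc
      have : (1 / e x - f x / e x) * e x = 1 - f x := by field_simp
      rw [this]; linarith
    obtain ⟨t, ht, hte⟩ := hcK x hx hxc
    have h1 := hf _ ht
    have h2 := hs x hx hxc
    rw [map_add, map_smul, map_sub, smul_eq_mul] at h1 hte
    set s : ℝ := e x / e c with hs
    have hsc : s * e c = e x := by rw [hs, div_mul_cancel₀ _ hc]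
    have h3 : t * (1 - s) = 1 := by
      rw [← hsc] at hte
      have : e c * (1 - t * (1 - s)) = 0 := by linarith
      rcases mul_eq_zero.1 this with h4 | h4
      · exact absurd h4 hc
      · linarith
    have h4 : (1 / e c - f c / e c) * e x = (1 - f c) * s := by
      rw [hs]; field_simp
    rw [h4]
    have h5 : 0 < 1 - s := by linarith
    -- multiply `h1` by `1 - s`
    have h6 := mul_le_mul_of_nonneg_left h1 h5.le
    have h7 : (1 - s) * (f c + t * (f x - f c)) = (1 - s) * f c + (t * (1 - s)) * (f x - f c) := by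
      ring
    rw [h7, h3] at h6
    linarith

/-- The final theorem. -/
theorem final (K : Set (EuclideanSpace ℝ (Fin 3))) (hconv : Convex ℝ K) (hK : IsCompact K)
    (o : EuclideanSpace ℝ (Fin 3)) (ho : o ∈ interior K) (n : EuclideanSpace ℝ (Fin 3))
    (h : (∃ v, inner ℝ n v ≠ (0 : ℝ) ∧
        ∀ x ∈ K, ∃ t : ℝ, x + t • v ∈ K ∧ inner ℝ n (x + t • v - o) = (0 : ℝ)) ∨
      (∃ c, inner ℝ n (c - o) ≠ (0 : ℝ) ∧
        ∀ x ∈ K, x ≠ c → ∃ t : ℝ, c + t • (x - c) ∈ K ∧
          inner ℝ n (c + t • (x - c) - o) = (0 : ℝ))) :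
    ∃ w : Fin 8 → EuclideanSpace ℝ (Fin 3), ∃ b : Fin 8 → ℝ,
      ∀ u x₀ : EuclideanSpace ℝ (Fin 3), u ≠ 0 → x₀ ∈ K →
        (∀ y ∈ K, inner ℝ u y ≤ inner ℝ u x₀) →
          ∃ i, inner ℝ (w i) o < b i ∧
            ∀ x ∈ K, inner ℝ u x = inner ℝ u x₀ → b i < inner ℝ (w i) x := by
  refine sep_to_hyperplanes hK o ?_
  set K₁ : Set (EuclideanSpace ℝ (Fin 3)) := (fun x => x - o) '' K with hK₁
  have hK₁c : IsCompact K₁ := hK.image (continuous_id.sub continuous_const)
  have hK₁i : (0 : EuclideanSpace ℝ (Fin 3)) ∈ interior K₁ := by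
    have h := (Homeomorph.subRight o).isOpenMap.image_interior_subset K
    apply h
    exact ⟨o, ho, by simp⟩
  have hK₁v : Convex ℝ K₁ := by
    have h : Convex ℝ ((fun x => x + -o) '' K) := convex_translate hconv (-o)
    have e : K₁ = (fun x => x + -o) '' K := by
      rw [hK₁]
      apply image_congr
      intro x _
      exact sub_eq_add_neg x o
    rw [e]
    exact h
  have hdim : Module.finrank ℝ (EuclideanSpace ℝ (Fin 3)) = 3 := by simp
  apply sep_of_shadow hdim hK₁v hK₁c hK₁i (innerSL ℝ n)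
  rcases h with ⟨v, hv, hvK⟩ | ⟨c, hc, hcK⟩
  · left
    refine ⟨v, by simpa using hv, ?_⟩
    rintro _ ⟨x, hx, rfl⟩
    obtain ⟨t, ht, hte⟩ := hvK x hx
    refine ⟨t, ⟨_, ht, ?_⟩, ?_⟩
    · simp only; abel
    · have e1 : x - o + t • v = x + t • v - o := by abel
      rw [innerSL_apply_apply, e1]
      exact hte
  · right
    refine ⟨c - o, by simpa using hc, ?_⟩
    rintro _ ⟨x, hx, rfl⟩ hne
    obtain ⟨t, ht, hte⟩ := hcK x hx (fun he => hne (by rw [he]))
    have e1 : c - o + t • (x - o - (c - o)) = c + t • (x - c) - o := by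
      rw [sub_sub_sub_cancel_right]; abel
    refine ⟨t, ⟨_, ht, e1.symm⟩, ?_⟩
    rw [innerSL_apply_apply, e1]
    exact hte

end Pool.Agent.Lib.MP_5e7226_co.PS
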