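import Mathlib

/-! Convex bodies with a planar shadow boundary: definitions and basic facts.

A convex body `L ⊆ E × ℝ` (`E = ℝ × ℝ`) all of whose fibres over its shadow `B ⊆ E` contain `0` is
described by `B`, its top `f ≥ 0` and the negative `h ≥ 0` of its bottom (so the fibre of `L` over
`x ∈ B` is `[-h x, f x]`; both `f` and `h` are concave). -/

set_option autoImplicit false

open Set Filter Topology

namespace Pool.Agent.Lib.MP_5e7226_co.PS

abbrev E := ℝ × ℝ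

/-- The shadow `B`, the top `f` and minus the bottom `h`. -/
structure PF (B : Set E) (f h : E → ℝ) : Prop where
  conv : Convex ℝ B
  cpt : IsCompact B
  int : (interior B).Nonempty
  fconc : ConcaveOn ℝ B f
  hconc : ConcaveOn ℝ B h
  fusc : UpperSemicontinuousOn f B
  husc : UpperSemicontinuousOn h B
  f0 : ∀ x ∈ B, 0 ≤ f x
  h0 : ∀ x ∈ B, 0 ≤ h x

/-- From `x` one gets into the interior of `B` in direction `v`. -/
def IN (B : Set E) (x v : E) : Prop := ∃ t : ℝ, 0 < t ∧ x + t • v ∈ interior B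

/-- The direction `(v, w)` points below the top `f` at `x`. -/
def UP (B : Set E) (f : E → ℝ) (x v : E) (w : ℝ) : Prop :=
  ∃ t : ℝ, 0 < t ∧ x + t • v ∈ B ∧ f x + t * w < f (x + t • v)

/-- The direction `(v, w)` illuminates the whole fibre over `x`. -/
def Full (B : Set E) (f h : E → ℝ) (x v : E) (w : ℝ) : Prop :=
  IN B x v ∧ UP B f x v w ∧ UP B h x v (-w)

/-- The directions in `D` illuminate the whole fibre over `x`. -/
def Cov (B : Set E) (f h : E → ℝ) (D : List (E × ℝ)) (x : E) : Prop :=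
  (∃ d ∈ D, Full B f h x d.1 d.2) ∨
    (0 < f x + h x ∧ (∃ d ∈ D, IN B x d.1 ∧ UP B f x d.1 d.2) ∧
      (∃ d ∈ D, IN B x d.1 ∧ UP B h x d.1 (-d.2)))

/-- Eight directions suffice. -/
def Good (B : Set E) (f h : E → ℝ) : Prop :=
  ∃ D : List (E × ℝ), D.length ≤ 8 ∧ ∀ x ∈ B, Cov B f h D x

variable {B : Set E} {f h : E → ℝ}

theorem PF.flip (H : PF B f h) : PF B h f where
  conv := H.conv
  cpt := H.cpt
  int := H.int
  fconc := H.hconc
  hconc := H.fconc
  fusc := H.husc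
  husc := H.fusc
  f0 := H.h0
  h0 := H.f0

theorem PF.seg_int (H : PF B f h) {x y : E} (hx : x ∈ interior B) (hy : y ∈ B) {t : ℝ}
    (ht0 : 0 < t) (ht1 : t ≤ 1) : (1 - t) • y + t • x ∈ interior B :=
  H.conv.combo_self_interior_mem_interior hy hx (by linarith) ht0 (by ring)

theorem PF.in_of_int (_H : PF B f h) {x : E} (hx : x ∈ interior B) (v : E) : IN B x v := by
  have hcont : ContinuousAt (fun t : ℝ => x + t • v) 0 := by fun_prop
  have h2 : ∀ᶠ t in 𝓝 (0 : ℝ), x + t • v ∈ interior B :=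
    hcont.eventually (by simpa using isOpen_interior.mem_nhds hx)
  rw [Metric.eventually_nhds_iff] at h2
  obtain ⟨r, hr, hr'⟩ := h2
  refine ⟨r / 2, by positivity, hr' ?_⟩
  rw [Real.dist_eq, sub_zero, abs_of_pos (by positivity)]
  linarith

theorem PF.bound1 (H : PF B f h) : ∃ R : ℝ, 0 < R ∧ ∀ x ∈ B, f x < R := by
  obtain ⟨R, hR⟩ := H.fusc.bddAbove_of_isCompact H.cpt
  refine ⟨|R| + 1, by positivity, fun x hx => ?_⟩
  have h1 := hR ⟨x, hx, rfl⟩
  have h2 := le_abs_self R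
  linarith

theorem PF.bound (H : PF B f h) : ∃ R : ℝ, 0 < R ∧ ∀ x ∈ B, f x < R ∧ h x < R := by
  obtain ⟨R, hR, h1⟩ := H.bound1
  obtain ⟨R', hR', h2⟩ := H.flip.bound1
  refine ⟨R + R', by positivity, fun x hx => ⟨?_, ?_⟩⟩
  · have := h1 x hx; linarith
  · have := h2 x hx; linarith

/-- `UP` holds for all small times -/
theorem UP.small (H : PF B f h) {x v : E} {w : ℝ} (hx : x ∈ B) (hh : UP B f x v w) :
    ∃ r : ℝ, 0 < r ∧ ∀ t : ℝ, 0 < t → t ≤ r → x + t • v ∈ B ∧ f x + t * w < f (x + t • v) := by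
  obtain ⟨t0, ht0, hm, hlt⟩ := hh
  refine ⟨t0, ht0, fun t ht htt => ?_⟩
  have hl0 : 0 < t / t0 := div_pos ht ht0
  have hl1 : t / t0 ≤ 1 := (div_le_one ht0).2 htt
  have e : x + t • v = (1 - t / t0) • x + (t / t0) • (x + t0 • v) := by
    rw [smul_add, smul_smul, div_mul_cancel₀ _ ht0.ne', sub_smul, one_smul]
    abel
  have hmem : x + t • v ∈ B := by
    rw [e]
    exact H.conv hx hm (by linarith) hl0.le (by ring)
  refine ⟨hmem, ?_⟩
  have hc := H.fconc.2 hx hm (show 0 ≤ 1 - t / t0 by linarith) hl0.le (by ring)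
  rw [← e] at hc
  simp only [smul_eq_mul] at hc
  have h1 : t / t0 * (f x + t0 * w) < t / t0 * f (x + t0 • v) := mul_lt_mul_of_pos_left hlt hl0
  have h2 : t / t0 * (t0 * w) = t * w := by
    rw [← mul_assoc, div_mul_cancel₀ _ ht0.ne']
  nlinarith

theorem IN.small (H : PF B f h) {x v : E} (hx : x ∈ B) (hh : IN B x v) :
    ∃ r : ℝ, 0 < r ∧ ∀ t : ℝ, 0 < t → t ≤ r → x + t • v ∈ interior B := by
  obtain ⟨t0, ht0, hm⟩ := hh
  refine ⟨t0, ht0, fun t ht htt => ?_⟩
  have hl0 : 0 < t / t0 := div_pos ht ht0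
  have hl1 : t / t0 ≤ 1 := (div_le_one ht0).2 htt
  have e : x + t • v = (1 - t / t0) • x + (t / t0) • (x + t0 • v) := by
    rw [smul_add, smul_smul, div_mul_cancel₀ _ ht0.ne', sub_smul, one_smul]
    abel
  rw [e]
  exact H.seg_int hm hx hl0 hl1

theorem cont_int (H : PF B f h) {x : E} (hx : x ∈ interior B) : ContinuousAt f x := by
  have h1 : ContinuousOn f (interior B) := H.fconc.continuousOn_interior
  exact h1.continuousAt (isOpen_interior.mem_nhds hx)

/-- openness for one function, with fixed landing time -/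
theorem up_open (H : PF B f h) {x v : E} {w t : ℝ} (hx : x ∈ B) (ht : 0 < t)
    (hint : x + t • v ∈ interior B) (hlt : f x + t * w < f (x + t • v)) :
    ∃ r : ℝ, 0 < r ∧ ∀ y ∈ B, ‖y - x‖ < r → ∀ w' : ℝ, |w' - w| < r →
      y + t • v ∈ interior B ∧ f y + t * w' < f (y + t • v) := by
  obtain ⟨δ, hδ, hδ'⟩ : ∃ δ : ℝ, 0 < δ ∧ f x + t * w + 3 * δ ≤ f (x + t • v) :=
    ⟨(f (x + t • v) - (f x + t * w)) / 3, by linarith, by linarith⟩
  have h1 : ∀ᶠ y in 𝓝[B] x, f y < f x + δ := H.fusc x hx (f x + δ) (by linarith)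
  have hcont : ContinuousAt (fun y : E => y + t • v) x := by fun_prop
  have h2 : ∀ᶠ y in 𝓝 x, y + t • v ∈ interior B :=
    hcont.eventually (isOpen_interior.mem_nhds hint)
  have h3 : ∀ᶠ y in 𝓝 x, f (x + t • v) - δ < f (y + t • v) := by
    have := (cont_int H hint).comp_of_eq hcont rfl
    exact this.eventually (lt_mem_nhds (by simp only [Function.comp]; linarith))
  rw [eventually_nhdsWithin_iff] at h1
  have h4 := h1.and (h2.and h3)
  rw [Metric.eventually_nhds_iff] at h4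
  obtain ⟨r, hr, hr'⟩ := h4
  refine ⟨min r (δ / t), lt_min hr (div_pos hδ ht), fun y hy hyx w' hw' => ?_⟩
  obtain ⟨a, b, c⟩ := hr' (y := y) (by rw [dist_eq_norm]; exact hyx.trans_le (min_le_left _ _))
  refine ⟨b, ?_⟩
  have hw2 : |w' - w| < δ / t := hw'.trans_le (min_le_right _ _)
  have hw3 : t * |w' - w| < δ := by
    rw [lt_div_iff₀ ht] at hw2
    linarith
  have hw4 : t * (w' - w) ≤ t * |w' - w| := mul_le_mul_of_nonneg_left (le_abs_self _) ht.le
  have := a hy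
  nlinarith

/-- `IN` together with `UP` is an open condition -/
theorem loc0 (H : PF B f h) {x v : E} {w : ℝ} (hx : x ∈ B) (hin : IN B x v)
    (hf : UP B f x v w) :
    ∃ r : ℝ, 0 < r ∧ ∀ y ∈ B, ‖y - x‖ < r → ∀ w' : ℝ, |w' - w| < r →
      IN B y v ∧ UP B f y v w' := by
  obtain ⟨r1, hr1, h1⟩ := IN.small H hx hin
  obtain ⟨r2, hr2, h2⟩ := UP.small H hx hf
  obtain ⟨t, ht, ht1, ht2⟩ : ∃ t : ℝ, 0 < t ∧ t ≤ r1 ∧ t ≤ r2 :=
    ⟨min r1 r2, by positivity, min_le_left _ _, min_le_right _ _⟩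
  obtain ⟨r4, hr4, h4⟩ := up_open H hx ht (h1 t ht ht1) (h2 t ht ht2).2
  refine ⟨r4, hr4, fun y hy hyx w' hw' => ?_⟩
  obtain ⟨a, b⟩ := h4 y hy hyx w' hw'
  exact ⟨⟨t, ht, a⟩, ⟨t, ht, interior_subset a, b⟩⟩

/-- full illumination of a fibre is an open condition -/
theorem loc1 (H : PF B f h) {x v : E} {w : ℝ} (hx : x ∈ B) (hh : Full B f h x v w) :
    ∃ r : ℝ, 0 < r ∧ ∀ y ∈ B, ‖y - x‖ < r → ∀ w' : ℝ, |w' - w| < r → Full B f h y v w' := by
  obtain ⟨hin, hf, hg⟩ := hh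
  obtain ⟨r4, hr4, h4⟩ := loc0 H hx hin hf
  obtain ⟨r5, hr5, h5⟩ := loc0 H.flip hx hin hg
  refine ⟨min r4 r5, lt_min hr4 hr5, fun y hy hyx w' hw' => ?_⟩
  obtain ⟨a, b⟩ := h4 y hy (hyx.trans_le (min_le_left _ _)) w' (hw'.trans_le (min_le_left _ _))
  obtain ⟨_, c⟩ := h5 y hy (hyx.trans_le (min_le_right _ _)) (-w') (by
    rw [show -w' - -w = -(w' - w) by ring, abs_neg]
    exact hw'.trans_le (min_le_right _ _))
  exact ⟨a, b, c⟩

/-- compactness -/
theorem unif_of_loc (H : PF B f h) (P : ℝ → E → Prop)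
    (hl : ∀ x ∈ B, ∃ r : ℝ, 0 < r ∧ ∀ y ∈ B, ‖y - x‖ < r → ∀ ε : ℝ, 0 < ε → ε < r → P ε y) :
    ∃ ε : ℝ, 0 < ε ∧ ∀ y ∈ B, P ε y := by
  choose! r hr hr' using hl
  obtain ⟨F, hF, hcov⟩ := H.cpt.elim_nhds_subcover (fun x => Metric.ball x (r x))
    (fun x hx => Metric.ball_mem_nhds x (hr x hx))
  obtain ⟨ε, hε, hε'⟩ : ∃ ε : ℝ, 0 < ε ∧ ∀ x ∈ F, ε < r x := by
    clear hcov
    induction F using Finset.induction_on with
    | empty => exact ⟨1, one_pos, by simp⟩
    | insert a F ha ih =>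
      obtain ⟨ε, hε, hε'⟩ := ih (fun x hx => hF x (Finset.mem_insert_of_mem hx))
      have hra := hr a (hF a (Finset.mem_insert_self _ _))
      refine ⟨min ε (r a / 2), lt_min hε (by linarith), fun x hx => ?_⟩
      rcases Finset.mem_insert.1 hx with rfl | hx
      · exact (min_le_right _ _).trans_lt (by linarith)
      · exact (min_le_left _ _).trans_lt (hε' x hx)
  refine ⟨ε, hε, fun y hy => ?_⟩
  obtain ⟨x, hx, hyx⟩ := Set.mem_iUnion₂.1 (hcov hy)
  rw [Metric.mem_ball, dist_eq_norm] at hyx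
  exact hr' x (hF x hx) y hy hyx ε hε (hε' x hx)

/-- compactness: local uniformity in `ε` suffices -/
theorem good_of_loc (H : PF B f h) (D : ℝ → List (E × ℝ)) (hD : ∀ ε, (D ε).length ≤ 8)
    (hl : ∀ x ∈ B, ∃ r : ℝ, 0 < r ∧ ∀ y ∈ B, ‖y - x‖ < r → ∀ ε : ℝ, 0 < ε → ε < r →
      Cov B f h (D ε) y) : Good B f h := by
  obtain ⟨ε, _, h1⟩ := unif_of_loc H (fun ε y => Cov B f h (D ε) y) hl
  exact ⟨D ε, hD ε, h1⟩

theorem Good.flip (hh : Good B h f) : Good B f h := by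
  obtain ⟨D, hD, hc⟩ := hh
  refine ⟨D.map (fun d => (d.1, -d.2)), by rw [List.length_map]; exact hD, fun x hx => ?_⟩
  rcases hc x hx with ⟨d, hd, h1, h2, h3⟩ | ⟨h0, ⟨d, hd, h1, h2⟩, ⟨d', hd', h3, h4⟩⟩
  · exact Or.inl ⟨(d.1, -d.2), List.mem_map.2 ⟨d, hd, rfl⟩, h1, h3, by simpa using h2⟩
  · refine Or.inr ⟨by linarith, ⟨(d'.1, -d'.2), List.mem_map.2 ⟨d', hd', rfl⟩, h3, h4⟩,
      ⟨(d.1, -d.2), List.mem_map.2 ⟨d, hd, rfl⟩, h1, by simpa using h2⟩⟩

/-- a steep direction works, locally uniformly, whenever it leads into the interior; the direction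
may depend on `ε` -/
theorem steep_of (H : PF B f h) {R : ℝ} (hR : ∀ x ∈ B, f x < R ∧ h x < R) {z v : E} {t ε : ℝ}
    (hz : z ∈ B) (ht : 0 < t) (hint : z + t • v ∈ interior B) (hε : 0 < ε) (hεt : ε * R < t) :
    UP B f z v (-(1 / ε)) ∧ UP B h z v (-(1 / ε)) := by
  have hmem := interior_subset hint
  have hε3 : R < t * (1 / ε) := by
    rw [mul_one_div, lt_div_iff₀ hε]; linarith
  have a1 := hR z hz
  have a2 := H.f0 _ hmem
  have a3 := H.h0 _ hmem
  constructor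
  · refine ⟨t, ht, hmem, ?_⟩
    have : t * -(1 / ε) = -(t * (1 / ε)) := by ring
    rw [this]; linarith [a1.1]
  · refine ⟨t, ht, hmem, ?_⟩
    have : t * -(1 / ε) = -(t * (1 / ε)) := by ring
    rw [this]; linarith [a1.2]

/-- a concave nonnegative function which vanishes at an interior point vanishes -/
theorem zero_of_int (H : PF B f h) {c : E} (hc : c ∈ interior B) (hz : f c = 0) :
    ∀ x ∈ B, f x = 0 := by
  intro x hx
  -- continue the segment from `x` to `c` a bit beyond `c`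
  obtain ⟨t, ht, hin⟩ := H.in_of_int hc (c - x)
  have hm := interior_subset hin
  have h1 := H.fconc.2 hx hm (show (0 : ℝ) ≤ t / (1 + t) by positivity)
    (show (0 : ℝ) ≤ 1 / (1 + t) by positivity) (by field_simp; ring)
  have e : (t / (1 + t)) • x + (1 / (1 + t)) • (c + t • (c - x)) = c := by
    have h2 : (1 + t) ≠ 0 := by positivity
    have : (t / (1 + t)) • x + (1 / (1 + t)) • (c + t • (c - x)) =
        ((1 / (1 + t)) * (1 + t)) • c := by
      rw [smul_add, smul_sub, smul_sub, smul_smul, smul_smul, div_mul_eq_mul_div, one_mul, mul_add,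
        add_smul, mul_one, one_div_mul_eq_div]
      abel
    rw [this, one_div_mul_cancel h2, one_smul]
  rw [e, hz] at h1
  simp only [smul_eq_mul] at h1
  have h2 := H.f0 _ hm
  have h3 := H.f0 x hx
  have h4 : 0 ≤ 1 / (1 + t) * f (c + t • (c - x)) := by positivity
  have h5 : t / (1 + t) * f x ≤ 0 := by linarith
  have h6 : 0 < t / (1 + t) := by positivity
  nlinarith

end Pool.Agent.Lib.MP_5e7226_co.PS
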