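import Pool.Agent.Lib.MP_5e7226_co.PS.Corner

/-! The illumination schemes. -/

set_option autoImplicit false

open Set Filter Topology

namespace Pool.Agent.Lib.MP_5e7226_co.PS

variable {B : Set E} {f h : E → ℝ}

/-- the fibre over `x` is the single point `0` -/
def Rim (f h : E → ℝ) (x : E) : Prop := f x = 0 ∧ h x = 0

/-- in addition the functions are positive in the interior -/
structure PP (B : Set E) (f h : E → ℝ) : Prop extends PF B f h where
  fpos : ∀ x ∈ interior B, 0 < f x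
  hpos : ∀ x ∈ interior B, 0 < h x

theorem Rim.flip {x : E} (hr : Rim f h x) : Rim h f x := ⟨hr.2, hr.1⟩

theorem PP.flip (H : PP B f h) : PP B h f := { H.toPF.flip with fpos := H.hpos, hpos := H.fpos }

theorem not_rim (H : PF B f h) {x : E} (hx : x ∈ B) (hr : ¬ Rim f h x) : 0 < f x + h x := by
  have h1 := H.f0 x hx
  have h2 := H.h0 x hx
  rcases lt_or_eq_of_le h1 with h3 | h3
  · linarith
  rcases lt_or_eq_of_le h2 with h4 | h4
  · linarith
  exact absurd ⟨h3.symm, h4.symm⟩ hr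

theorem PP.rim_not_int (H : PP B f h) {x : E} (hr : Rim f h x) : x ∉ interior B := by
  intro hx
  have := H.fpos x hx
  rw [hr.1] at this
  exact lt_irrefl _ this

theorem cov_of (H : PF B f h) {D : List (E × ℝ)} {z : E} (hz : z ∈ B)
    (h1 : Rim f h z → ∃ d ∈ D, Full B f h z d.1 d.2)
    (h2 : ¬ Rim f h z → (∃ d ∈ D, IN B z d.1 ∧ UP B f z d.1 d.2) ∧
      (∃ d ∈ D, IN B z d.1 ∧ UP B h z d.1 (-d.2))) : Cov B f h D z := by
  by_cases hr : Rim f h z
  · exact Or.inl (h1 hr)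
  · exact Or.inr ⟨not_rim H hz hr, h2 hr⟩

theorem cov_of_full {D : List (E × ℝ)} {z : E} {d : E × ℝ} (hd : d ∈ D)
    (h1 : Full B f h z d.1 d.2) : Cov B f h D z := Or.inl ⟨d, hd, h1⟩

/-- horizontal directions illuminate rim points -/
theorem full_rim (H : PP B f h) {z a : E} {t : ℝ} (hr : Rim f h z) (ht : 0 < t)
    (hint : z + t • a ∈ interior B) : Full B f h z a 0 := by
  refine ⟨⟨t, ht, hint⟩, ⟨t, ht, interior_subset hint, ?_⟩, ⟨t, ht, interior_subset hint, ?_⟩⟩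
  · rw [hr.1]; simpa using H.fpos _ hint
  · rw [hr.2]; simpa using H.hpos _ hint

theorem full_rim' (H : PP B f h) {z a : E} (hr : Rim f h z) (hin : IN B z a) :
    Full B f h z a 0 := by
  obtain ⟨t, ht, hint⟩ := hin
  exact full_rim H hr ht hint

/-- the four steep directions of a pair of opposite corners -/
noncomputable def steep (u v : E) (ε : ℝ) : List (E × ℝ) :=
  [((1 : ℝ) • (v - ε • u), 1 / ε), ((1 : ℝ) • (v - ε • u), -(1 / ε)),
    ((-1 : ℝ) • (v - ε • u), 1 / ε), ((-1 : ℝ) • (v - ε • u), -(1 / ε))]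

theorem steep_cov {y P u v : E} {l k : E →ₗ[ℝ] ℝ} (H : PF B f h) (O : Opp B y P l k u v)
    {x : E} (hx : x ∈ B) (h1 : x ≠ y) (h2 : x ≠ P) :
    ∃ r : ℝ, 0 < r ∧ ∀ z ∈ B, ‖z - x‖ < r → ∀ ε : ℝ, 0 < ε → ε < r →
      (∃ d ∈ steep u v ε, IN B z d.1 ∧ UP B f z d.1 d.2) ∧
      (∃ d ∈ steep u v ε, IN B z d.1 ∧ UP B h z d.1 (-d.2)) := by
  obtain ⟨r, hr, s, hs, t, ht, hh⟩ := O.corner' H hx h1 h2
  obtain ⟨R, hR, hb⟩ := H.bound
  refine ⟨min r (t / R), lt_min hr (div_pos ht hR), fun z hz hzx ε hε hεr => ?_⟩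
  have hint := hh z hz (hzx.trans_le (min_le_left _ _)) ε hε (hεr.trans_le (min_le_left _ _))
  have hεt : ε * R < t := by
    have := hεr.trans_le (min_le_right _ _)
    rwa [lt_div_iff₀ hR] at this
  obtain ⟨u1, u2⟩ := steep_of H hb hz ht hint hε hεt
  constructor
  · refine ⟨(s • (v - ε • u), -(1 / ε)), ?_, ⟨t, ht, hint⟩, u1⟩
    rcases hs with rfl | rfl <;> simp [steep]
  · refine ⟨(s • (v - ε • u), 1 / ε), ?_, ⟨t, ht, hint⟩, u2⟩
    rcases hs with rfl | rfl <;> simp [steep]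

/-- a fixed direction into the interior, made steep -/
theorem steep_fixed (H : PF B f h) {x a : E} (hx : x ∈ B) (ha : IN B x a) :
    ∃ r : ℝ, 0 < r ∧ ∀ z ∈ B, ‖z - x‖ < r → ∀ ε : ℝ, 0 < ε → ε < r →
      IN B z a ∧ UP B f z a (-(1 / ε)) ∧ UP B h z a (-(1 / ε)) := by
  obtain ⟨t, ht, hint⟩ := ha
  obtain ⟨R, hR, hb⟩ := H.bound
  have hcont : ContinuousAt (fun y : E => y + t • a) x := by fun_prop
  have h2 : ∀ᶠ y in 𝓝 x, y + t • a ∈ interior B :=
    hcont.eventually (isOpen_interior.mem_nhds hint)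
  rw [Metric.eventually_nhds_iff] at h2
  obtain ⟨r, hr, hr'⟩ := h2
  refine ⟨min r (t / R), lt_min hr (div_pos ht hR), fun z hz hzx ε hε hεr => ?_⟩
  have hint' : z + t • a ∈ interior B :=
    hr' (by rw [dist_eq_norm]; exact hzx.trans_le (min_le_left _ _))
  have hεt : ε * R < t := by
    have := hεr.trans_le (min_le_right _ _)
    rwa [lt_div_iff₀ hR] at this
  obtain ⟨u1, u2⟩ := steep_of H hb hz ht hint' hε hεt
  exact ⟨⟨t, ht, hint'⟩, u1, u2⟩

theorem in_center (H : PF B f h) {x c : E} (hc : c ∈ interior B) : IN B x (c - x) :=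
  ⟨1, one_pos, by rw [one_smul, add_sub_cancel]; exact hc⟩

/-- `loc1` at slope `0` for a fixed direction, as covering -/
theorem loc_cov (H : PP B f h) {x a : E} (hx : x ∈ B) (hr : Rim f h x) (ha : IN B x a)
    (D : ℝ → List (E × ℝ)) (hD : ∀ ε, (a, (0 : ℝ)) ∈ D ε) :
    ∃ r : ℝ, 0 < r ∧ ∀ z ∈ B, ‖z - x‖ < r → ∀ ε : ℝ, 0 < ε → ε < r → Cov B f h (D ε) z := by
  obtain ⟨r, hr', hh⟩ := loc1 H.toPF hx (full_rim' H hr ha)
  refine ⟨r, hr', fun z hz hzx ε _ _ => ?_⟩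
  exact cov_of_full (hD ε) (hh z hz hzx 0 (by simpa using hr'))

/-- Scheme A: two opposite corners on the rim. -/
theorem caseA {y P u v : E} {l k : E →ₗ[ℝ] ℝ} (H : PP B f h) (O : Opp B y P l k u v)
    (hy : Rim f h y) (hP : Rim f h P) : Good B f h := by
  obtain ⟨c, hc⟩ := H.int
  refine good_of_loc H.toPF (fun ε => steep u v ε ++ [((1 : ℝ) • (v - ε • u), 0),
    ((-1 : ℝ) • (v - ε • u), 0), (c - y, 0), (c - P, 0)]) (fun ε => by simp [steep]) ?_
  intro x hx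
  by_cases h1 : x = y
  · subst h1
    exact loc_cov H hx hy (in_center H.toPF hc) _ (fun ε => by simp)
  by_cases h2 : x = P
  · subst h2
    exact loc_cov H hx hP (in_center H.toPF hc) _ (fun ε => by simp)
  obtain ⟨r, hr, hh⟩ := steep_cov H.toPF O hx h1 h2
  obtain ⟨r', hr', s, hs, t, ht, hh'⟩ := O.corner' H.toPF hx h1 h2
  refine ⟨min r r', lt_min hr hr', fun z hz hzx ε hε hεr => ?_⟩
  apply cov_of H.toPF hz
  · intro hrim
    have := full_rim H hrim ht (hh' z hz (hzx.trans_le (min_le_right _ _)) ε hε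
      (hεr.trans_le (min_le_right _ _)))
    refine ⟨(s • (v - ε • u), 0), ?_, this⟩
    rcases hs with rfl | rfl <;> simp
  · intro _
    obtain ⟨⟨d, hd, a⟩, ⟨d', hd', a'⟩⟩ := hh z hz (hzx.trans_le (min_le_left _ _)) ε hε
      (hεr.trans_le (min_le_left _ _))
    exact ⟨⟨d, List.mem_append_left _ hd, a⟩, ⟨d', List.mem_append_left _ hd', a'⟩⟩

/-- Scheme B: the rim is illuminated by two horizontal directions. -/
theorem caseB {y P u v : E} {l k : E →ₗ[ℝ] ℝ} (H : PP B f h) (O : Opp B y P l k u v)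
    (hy : Rim f h y) {a₁ a₂ : E} (hD : ∀ z ∈ B, Rim f h z → IN B z a₁ ∨ IN B z a₂) :
    Good B f h := by
  obtain ⟨c, hc⟩ := H.int
  set D : ℝ → List (E × ℝ) := fun ε => steep u v ε ++ [(a₁, 0), (a₂, 0), (c - P, 1 / ε),
    (c - P, -(1 / ε))] with hDdef
  have hrim : ∀ ε, ∀ z ∈ B, Rim f h z → ∃ d ∈ D ε, Full B f h z d.1 d.2 := by
    intro ε z hz hr
    rcases hD z hz hr with h1 | h1
    · exact ⟨(a₁, 0), by simp [hDdef], full_rim' H hr h1⟩
    · exact ⟨(a₂, 0), by simp [hDdef], full_rim' H hr h1⟩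
  refine good_of_loc H.toPF D (fun ε => by simp [hDdef, steep]) ?_
  intro x hx
  by_cases h1 : x = y
  · subst h1
    rcases hD x hx hy with h1 | h1
    · exact loc_cov H hx hy h1 _ (fun ε => by simp [hDdef])
    · exact loc_cov H hx hy h1 _ (fun ε => by simp [hDdef])
  by_cases h2 : x = P
  · subst h2
    obtain ⟨r, hr, hh⟩ := steep_fixed H.toPF hx (in_center H.toPF hc (x := x))
    refine ⟨r, hr, fun z hz hzx ε hε hεr => ?_⟩
    apply cov_of H.toPF hz (hrim ε z hz)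
    intro _
    obtain ⟨b1, b2, b3⟩ := hh z hz hzx ε hε hεr
    exact ⟨⟨(c - x, -(1 / ε)), by simp [hDdef], b1, b2⟩, ⟨(c - x, 1 / ε), by simp [hDdef], b1, b3⟩⟩
  obtain ⟨r, hr, hh⟩ := steep_cov H.toPF O hx h1 h2
  refine ⟨r, hr, fun z hz hzx ε hε hεr => ?_⟩
  apply cov_of H.toPF hz (hrim ε z hz)
  intro _
  obtain ⟨⟨d, hd, a⟩, ⟨d', hd', a'⟩⟩ := hh z hz hzx ε hε hεr
  exact ⟨⟨d, List.mem_append_left _ hd, a⟩, ⟨d', List.mem_append_left _ hd', a'⟩⟩

/-- Scheme β: the rim is illuminated by three horizontal directions, the first of which also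
illuminates the top over `P`. -/
theorem caseBeta {y P u v : E} {l k : E →ₗ[ℝ] ℝ} (H : PP B f h) (O : Opp B y P l k u v)
    (hy : Rim f h y) {a₁ a₂ a₃ : E}
    (hD : ∀ z ∈ B, Rim f h z → IN B z a₁ ∨ IN B z a₂ ∨ IN B z a₃)
    (hP1 : IN B P a₁) (hP2 : UP B f P a₁ 0) :
    Good B f h := by
  obtain ⟨c, hc⟩ := H.int
  set D : ℝ → List (E × ℝ) := fun ε => steep u v ε ++ [(a₁, 0), (a₂, 0), (a₃, 0),
    (c - P, 1 / ε)] with hDdef
  have hrim : ∀ ε, ∀ z ∈ B, Rim f h z → ∃ d ∈ D ε, Full B f h z d.1 d.2 := by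
    intro ε z hz hr
    rcases hD z hz hr with h1 | h1 | h1
    · exact ⟨(a₁, 0), by simp [hDdef], full_rim' H hr h1⟩
    · exact ⟨(a₂, 0), by simp [hDdef], full_rim' H hr h1⟩
    · exact ⟨(a₃, 0), by simp [hDdef], full_rim' H hr h1⟩
  refine good_of_loc H.toPF D (fun ε => by simp [hDdef, steep]) ?_
  intro x hx
  by_cases h1 : x = y
  · subst h1
    rcases hD x hx hy with h1 | h1 | h1
    · exact loc_cov H hx hy h1 _ (fun ε => by simp [hDdef])
    · exact loc_cov H hx hy h1 _ (fun ε => by simp [hDdef])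
    · exact loc_cov H hx hy h1 _ (fun ε => by simp [hDdef])
  by_cases h2 : x = P
  · subst h2
    obtain ⟨r, hr, hh⟩ := steep_fixed H.toPF hx (in_center H.toPF hc (x := x))
    obtain ⟨r', hr', hh'⟩ := loc0 H.toPF hx hP1 hP2
    refine ⟨min r r', lt_min hr hr', fun z hz hzx ε hε hεr => ?_⟩
    apply cov_of H.toPF hz (hrim ε z hz)
    intro _
    obtain ⟨b1, _, b3⟩ := hh z hz (hzx.trans_le (min_le_left _ _)) ε hε
      (hεr.trans_le (min_le_left _ _))
    obtain ⟨b4, b5⟩ := hh' z hz (hzx.trans_le (min_le_right _ _)) 0 (by simpa using hr')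
    exact ⟨⟨(a₁, 0), by simp [hDdef], b4, b5⟩, ⟨(c - x, 1 / ε), by simp [hDdef], b1, b3⟩⟩
  obtain ⟨r, hr, hh⟩ := steep_cov H.toPF O hx h1 h2
  refine ⟨r, hr, fun z hz hzx ε hε hεr => ?_⟩
  apply cov_of H.toPF hz (hrim ε z hz)
  intro _
  obtain ⟨⟨d, hd, a⟩, ⟨d', hd', a'⟩⟩ := hh z hz hzx ε hε hεr
  exact ⟨⟨d, List.mem_append_left _ hd, a⟩, ⟨d', List.mem_append_left _ hd', a'⟩⟩

/-- there is a pair of opposite corners -/
theorem exists_pair (H : PF B f h) : ∃ y P l k u v, Opp B y P l k u v := by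
  obtain ⟨c, k, u, v, _, hd⟩ := exists_dual (LinearMap.fst ℝ ℝ ℝ) (by
    intro h0
    have := congrArg (fun g : E →ₗ[ℝ] ℝ => g (1, 0)) h0
    simp at this)
  obtain ⟨x, hx⟩ := H.int
  have hxB := interior_subset hx
  obtain ⟨x', hx', hmax⟩ := H.cpt.exists_isMaxOn ⟨x, hxB⟩
    (cont_lin (c • LinearMap.fst ℝ ℝ ℝ)).continuousOn
  obtain ⟨y, hy, h1, h2, _⟩ := exists_end H hd hx'
  obtain ⟨P, hP⟩ := exists_opp H hd hy (fun z hz => by rw [h1]; exact hmax hz)
    (fun z hz hlz hne => h2 z hz (by rw [hlz, h1]) hne)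
  exact ⟨y, P, _, k, u, v, hP⟩

/-- Scheme 0: no rim. -/
theorem caseNoRim (H : PF B f h) (hD : ∀ x ∈ B, ¬ Rim f h x) : Good B f h := by
  obtain ⟨c, hc⟩ := H.int
  obtain ⟨y, P, l, k, u, v, O⟩ := exists_pair H
  set D : ℝ → List (E × ℝ) := fun ε => steep u v ε ++ [(c - y, 1 / ε), (c - y, -(1 / ε)),
    (c - P, 1 / ε), (c - P, -(1 / ε))] with hDdef
  refine good_of_loc H D (fun ε => by simp [hDdef, steep]) ?_
  intro x hx
  by_cases h1 : x = y
  · subst h1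
    obtain ⟨r, hr, hh⟩ := steep_fixed H hx (in_center H hc (x := x))
    refine ⟨r, hr, fun z hz hzx ε hε hεr => ?_⟩
    apply cov_of H hz (fun hr => absurd hr (hD z hz))
    intro _
    obtain ⟨b1, b2, b3⟩ := hh z hz hzx ε hε hεr
    exact ⟨⟨(c - x, -(1 / ε)), by simp [hDdef], b1, b2⟩, ⟨(c - x, 1 / ε), by simp [hDdef], b1, b3⟩⟩
  by_cases h2 : x = P
  · subst h2
    obtain ⟨r, hr, hh⟩ := steep_fixed H hx (in_center H hc (x := x))
    refine ⟨r, hr, fun z hz hzx ε hε hεr => ?_⟩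
    apply cov_of H hz (fun hr => absurd hr (hD z hz))
    intro _
    obtain ⟨b1, b2, b3⟩ := hh z hz hzx ε hε hεr
    exact ⟨⟨(c - x, -(1 / ε)), by simp [hDdef], b1, b2⟩, ⟨(c - x, 1 / ε), by simp [hDdef], b1, b3⟩⟩
  obtain ⟨r, hr, hh⟩ := steep_cov H O hx h1 h2
  refine ⟨r, hr, fun z hz hzx ε hε hεr => ?_⟩
  apply cov_of H hz (fun hr => absurd hr (hD z hz))
  intro _
  obtain ⟨⟨d, hd, a⟩, ⟨d', hd', a'⟩⟩ := hh z hz hzx ε hε hεr
  exact ⟨⟨d, List.mem_append_left _ hd, a⟩, ⟨d', List.mem_append_left _ hd', a'⟩⟩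

/-- four fixed directions lead from every point of `B` into the interior -/
theorem planar4 (H : PF B f h) : ∃ a₁ a₂ a₃ a₄ : E, ∀ x ∈ B,
    IN B x a₁ ∨ IN B x a₂ ∨ IN B x a₃ ∨ IN B x a₄ := by
  obtain ⟨c, hc⟩ := H.int
  obtain ⟨y, P, l, k, u, v, O⟩ := exists_pair H
  obtain ⟨ε, _, hh⟩ := unif_of_loc H (fun ε z => IN B z ((1 : ℝ) • (v - ε • u)) ∨
    IN B z ((-1 : ℝ) • (v - ε • u)) ∨ IN B z (c - y) ∨ IN B z (c - P)) (by
    intro x hx
    by_cases h1 : x = y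
    · subst h1
      obtain ⟨r, hr, hh⟩ := steep_fixed H hx (in_center H hc (x := x))
      exact ⟨r, hr, fun z hz hzx ε hε hεr => Or.inr (Or.inr (Or.inl (hh z hz hzx ε hε hεr).1))⟩
    by_cases h2 : x = P
    · subst h2
      obtain ⟨r, hr, hh⟩ := steep_fixed H hx (in_center H hc (x := x))
      exact ⟨r, hr, fun z hz hzx ε hε hεr => Or.inr (Or.inr (Or.inr (hh z hz hzx ε hε hεr).1))⟩
    obtain ⟨r, hr, s, hs, t, ht, hh⟩ := O.corner' H hx h1 h2
    refine ⟨r, hr, fun z hz hzx ε hε hεr => ?_⟩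
    have hin : IN B z (s • (v - ε • u)) := ⟨t, ht, hh z hz hzx ε hε hεr⟩
    rcases hs with rfl | rfl
    · exact Or.inl hin
    · exact Or.inr (Or.inl hin))
  exact ⟨_, _, _, _, hh⟩

/-- Scheme F: flat top. -/
theorem caseFlat (H : PF B f h) (hf : ∀ x ∈ B, f x = 0) (hpos : ∀ x ∈ interior B, 0 < h x) :
    Good B f h := by
  obtain ⟨a₁, a₂, a₃, a₄, hall⟩ := planar4 H
  set D : ℝ → List (E × ℝ) := fun ε => [(a₁, -ε), (a₁, 1 / ε), (a₂, -ε), (a₂, 1 / ε),
    (a₃, -ε), (a₃, 1 / ε), (a₄, -ε), (a₄, 1 / ε)] with hDdef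
  refine good_of_loc H D (fun ε => by simp [hDdef]) ?_
  intro x hx
  have key : ∀ a : E, IN B x a → (∀ ε, (a, -ε) ∈ D ε) → (∀ ε, (a, 1 / ε) ∈ D ε) →
      ∃ r : ℝ, 0 < r ∧ ∀ z ∈ B, ‖z - x‖ < r → ∀ ε : ℝ, 0 < ε → ε < r → Cov B f h (D ε) z := by
    intro a ha hm1 hm2
    obtain ⟨r, hr, hh⟩ := steep_fixed H hx ha
    obtain ⟨t, ht, hint⟩ := ha
    have hcont : ContinuousAt (fun y : E => y + t • a) x := by fun_prop
    have e1 : ∀ᶠ y in 𝓝 x, y + t • a ∈ interior B :=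
      hcont.eventually (isOpen_interior.mem_nhds hint)
    have e2 : ∀ᶠ y in 𝓝 x, h (x + t • a) / 2 < h (y + t • a) := by
      have := (cont_int H.flip hint).comp_of_eq hcont rfl
      have hp := hpos _ hint
      exact this.eventually (lt_mem_nhds (by simp only [Function.comp]; linarith))
    have e3 := e1.and e2
    rw [Metric.eventually_nhds_iff] at e3
    obtain ⟨r', hr', hh'⟩ := e3
    have hp := hpos _ hint
    refine ⟨min (min r r') (h (x + t • a) / 2 / t), lt_min (lt_min hr hr') (by positivity),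
      fun z hz hzx ε hε hεr => ?_⟩
    have hzr : ‖z - x‖ < r := hzx.trans_le ((min_le_left _ _).trans (min_le_left _ _))
    have hzr' : ‖z - x‖ < r' := hzx.trans_le ((min_le_left _ _).trans (min_le_right _ _))
    have hεr1 : ε < r := hεr.trans_le ((min_le_left _ _).trans (min_le_left _ _))
    have hεt : ε * t < h (x + t • a) / 2 := by
      have := hεr.trans_le (min_le_right _ _)
      rwa [lt_div_iff₀ ht] at this
    obtain ⟨b1, b2, b3⟩ := hh z hz hzr ε hε hεr1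
    obtain ⟨i1, i2⟩ := hh' (y := z) (by rw [dist_eq_norm]; exact hzr')
    have hzm := interior_subset i1
    have hupf : UP B f z a (-ε) := ⟨t, ht, hzm, by
      rw [hf z hz, hf _ hzm]; have := mul_pos ht hε; linarith⟩
    apply cov_of H hz
    · intro hrim
      refine ⟨(a, -ε), hm1 ε, ⟨t, ht, i1⟩, hupf, ⟨t, ht, hzm, ?_⟩⟩
      rw [hrim.2]
      simp only [neg_neg]
      linarith
    · intro _
      exact ⟨⟨(a, -ε), hm1 ε, ⟨t, ht, i1⟩, hupf⟩, ⟨(a, 1 / ε), hm2 ε, b1, b3⟩⟩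
  rcases hall x hx with h1 | h1 | h1 | h1
  · exact key a₁ h1 (fun ε => by simp [hDdef]) (fun ε => by simp [hDdef])
  · exact key a₂ h1 (fun ε => by simp [hDdef]) (fun ε => by simp [hDdef])
  · exact key a₃ h1 (fun ε => by simp [hDdef]) (fun ε => by simp [hDdef])
  · exact key a₄ h1 (fun ε => by simp [hDdef]) (fun ε => by simp [hDdef])

end Pool.Agent.Lib.MP_5e7226_co.PS
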