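import Pool.Agent.Lib.MP_5e7226_co.PS.Base

/-! Opposite corners of a planar convex body. -/

set_option autoImplicit false

open Set Filter Topology

namespace Pool.Agent.Lib.MP_5e7226_co.PS

variable {B : Set E} {f h : E → ℝ}

/-- `l, k` are linear functionals and `u, v` is the dual basis. -/
structure Dual (l k : E →ₗ[ℝ] ℝ) (u v : E) : Prop where
  lu : l u = 1
  lv : l v = 0
  ku : k u = 0
  kv : k v = 1
  dec : ∀ x : E, l x • u + k x • v = x

/-- `y` and `P` are opposite corners: `y` is the only point of `B` at which first `l` and then `k`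
is maximal, and `P` is the only point of `B` at which first `l` and then `k` is minimal. -/
structure Opp (B : Set E) (y P : E) (l k : E →ₗ[ℝ] ℝ) (u v : E) : Prop extends Dual l k u v where
  ymem : y ∈ B
  Pmem : P ∈ B
  le : ∀ x ∈ B, l x ≤ l y
  ge : ∀ x ∈ B, l P ≤ l x
  ylt : ∀ x ∈ B, l x = l y → x ≠ y → k x < k y
  Pgt : ∀ x ∈ B, l x = l P → x ≠ P → k P < k x

theorem Dual.neg {l k : E →ₗ[ℝ] ℝ} {u v : E} (h : Dual l k u v) : Dual (-l) (-k) (-u) (-v) where
  lu := by simp [h.lu]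
  lv := by simp [h.lv]
  ku := by simp [h.ku]
  kv := by simp [h.kv]
  dec := fun x => by simp [h.dec]

/-- reflecting `k` only -/
theorem Dual.negk {l k : E →ₗ[ℝ] ℝ} {u v : E} (h : Dual l k u v) : Dual l (-k) u (-v) where
  lu := h.lu
  lv := by simp [h.lv]
  ku := by simp [h.ku]
  kv := by simp [h.kv]
  dec := fun x => by simp [h.dec]

theorem Dual.ext {l k : E →ₗ[ℝ] ℝ} {u v : E} (hd : Dual l k u v) {a b : E}
    (h1 : l a = l b) (h2 : k a = k b) : a = b := by
  rw [← hd.dec a, ← hd.dec b, h1, h2]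

theorem Opp.swap {y P u v : E} {l k : E →ₗ[ℝ] ℝ} (O : Opp B y P l k u v) :
    Opp B P y (-l) (-k) (-u) (-v) where
  toDual := O.toDual.neg
  ymem := O.Pmem
  Pmem := O.ymem
  le := fun x hx => by simpa using O.ge x hx
  ge := fun x hx => by simpa using O.le x hx
  ylt := fun x hx h1 h2 => by simpa using O.Pgt x hx (by simpa using h1) h2
  Pgt := fun x hx h1 h2 => by simpa using O.ylt x hx (by simpa using h1) h2

/-- a nonzero functional has a dual basis -/
theorem exists_dual (l : E →ₗ[ℝ] ℝ) (hl : l ≠ 0) :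
    ∃ (c : ℝ) (k : E →ₗ[ℝ] ℝ) (u v : E), 0 < c ∧ Dual (c • l) k u v := by
  set α := l (1, 0) with hα
  set β := l (0, 1) with hβ
  have hle : ∀ x : E, l x = α * x.1 + β * x.2 := by
    intro x
    have hx : x = x.1 • ((1, 0) : E) + x.2 • ((0, 1) : E) := by
      ext <;> simp
    conv_lhs => rw [hx]
    rw [map_add, map_smul, map_smul, ← hα, ← hβ, smul_eq_mul, smul_eq_mul]
    ring
  have hS : 0 < α ^ 2 + β ^ 2 := by
    by_contra hcon
    push Not at hcon
    have h1 : α = 0 := by nlinarith [sq_nonneg α, sq_nonneg β]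
    have h2 : β = 0 := by nlinarith [sq_nonneg α, sq_nonneg β]
    apply hl
    apply LinearMap.ext
    intro x
    rw [hle, h1, h2]; simp
  refine ⟨1, (-β / (α ^ 2 + β ^ 2)) • LinearMap.fst ℝ ℝ ℝ + (α / (α ^ 2 + β ^ 2)) •
    LinearMap.snd ℝ ℝ ℝ, (α / (α ^ 2 + β ^ 2), β / (α ^ 2 + β ^ 2)), (-β, α), one_pos,
    ⟨?_, ?_, ?_, ?_, ?_⟩⟩
  · rw [one_smul, hle]; field_simp
  · rw [one_smul, hle]; simp; ring
  · simp; field_simp; ring
  · simp; field_simp; ring
  · intro x
    rw [one_smul, hle]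
    ext
    · simp; field_simp; ring
    · simp; field_simp; ring

theorem cont_lin (l : E →ₗ[ℝ] ℝ) : Continuous l := l.continuous_of_finiteDimensional

/-- interior points are strictly inside -/
theorem Opp.lt_int {y P u v : E} {l k : E →ₗ[ℝ] ℝ} (H : PF B f h) (O : Opp B y P l k u v) {c : E}
    (hc : c ∈ interior B) : l P < l c ∧ l c < l y := by
  obtain ⟨t, ht, h1⟩ := H.in_of_int hc u
  obtain ⟨t', ht', h2⟩ := H.in_of_int hc (-u)
  have a1 := O.le _ (interior_subset h1)
  have a2 := O.ge _ (interior_subset h2)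
  rw [map_add, map_smul, O.lu] at a1
  rw [map_add, map_smul, map_neg, O.lu] at a2
  simp only [smul_eq_mul] at a1 a2
  constructor <;> linarith

/-- the map `(z, ε) ↦ z + τ (v - ε u)` is continuous -/
theorem near (x u v : E) (τ : ℝ) {U : Set E} (hU : U ∈ 𝓝 (x + τ • v)) :
    ∃ r : ℝ, 0 < r ∧ ∀ z : E, ‖z - x‖ < r → ∀ ε : ℝ, 0 < ε → ε < r → z + τ • (v - ε • u) ∈ U := by
  have hcont : ContinuousAt (fun q : E × ℝ => q.1 + τ • (v - q.2 • u)) (x, 0) := by fun_prop
  have h1 : U ∈ 𝓝 ((fun q : E × ℝ => q.1 + τ • (v - q.2 • u)) (x, 0)) := by simpa using hU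
  have h2 := hcont h1
  rw [mem_map, Metric.mem_nhds_iff] at h2
  obtain ⟨r, hr, hr'⟩ := h2
  refine ⟨r, hr, fun z hz ε hε hεr => ?_⟩
  have h3 : (z, ε) ∈ Metric.ball ((x, 0) : E × ℝ) r := by
    rw [Metric.mem_ball, Prod.dist_eq, max_lt_iff]
    refine ⟨by rw [dist_eq_norm]; exact hz, ?_⟩
    rw [Real.dist_eq, sub_zero, abs_of_pos hε]
    exact hεr
  exact hr' h3

/-- near the relative interior of a face, points strictly inside are interior -/
theorem Opp.between {y P u v : E} {l k : E →ₗ[ℝ] ℝ} (H : PF B f h) (O : Opp B y P l k u v)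
    {x c : E} (hx : x ∈ B) (hl : l x = l y) (hc : c ∈ interior B) (hk : k x < k y) {w : E}
    (hg : (l y - l w) / (l y - l c) < 1)
    (b : (1 - (l y - l w) / (l y - l c)) * k x < k w - (l y - l w) / (l y - l c) * k c)
    (c' : k w - (l y - l w) / (l y - l c) * k c < (1 - (l y - l w) / (l y - l c)) * k y)
    (hlw : l w < l y) : w ∈ interior B := by
  have hlc := (O.lt_int H hc).2
  set γ : ℝ := (l y - l w) / (l y - l c) with hγ
  have hγ0 : 0 < γ := div_pos (by linarith) (by linarith)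
  have hγ1 : 0 < 1 - γ := by linarith
  have hγe : γ * (l y - l c) = l y - l w := by
    rw [hγ, div_mul_cancel₀ _ (by linarith)]
  set κ : ℝ := (k w - γ * k c) / (1 - γ) with hκ
  have hκ1 : k x < κ := by rw [hκ, lt_div_iff₀ hγ1]; linarith
  have hκ2 : κ < k y := by rw [hκ, div_lt_iff₀ hγ1]; linarith
  have hκe : (1 - γ) * κ = k w - γ * k c := by
    rw [hκ, mul_div_cancel₀ _ hγ1.ne']
  have hkxy : 0 < k y - k x := by linarith
  set μ : ℝ := (κ - k x) / (k y - k x) with hμ
  have hμ0 : 0 ≤ μ := div_nonneg (by linarith) hkxy.le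
  have hμ1 : μ ≤ 1 := by rw [hμ, div_le_one hkxy]; linarith
  have hμe : μ * (k y - k x) = κ - k x := by rw [hμ, div_mul_cancel₀ _ hkxy.ne']
  have hmem : (1 - μ) • x + μ • y ∈ B := H.conv hx O.ymem (by linarith) hμ0 (by ring)
  have e : w = (1 - γ) • ((1 - μ) • x + μ • y) + γ • c := by
    apply O.toDual.ext
    · simp only [map_add, map_smul, smul_eq_mul, hl]
      linear_combination hγe
    · simp only [map_add, map_smul, smul_eq_mul]
      have : (1 - μ) * k x + μ * k y = κ := by linear_combination hμe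
      rw [this]
      linear_combination (-1 : ℝ) * hκe
  rw [e]
  exact H.seg_int hc hmem hγ0 (by linarith)

theorem Opp.corner_one {y P u v : E} {l k : E →ₗ[ℝ] ℝ} (H : PF B f h) (O : Opp B y P l k u v)
    {x : E} (hx : x ∈ B) (h1 : x ≠ y) (hl : l x = l y) :
    ∃ r : ℝ, 0 < r ∧ ∃ τ : ℝ, τ ≠ 0 ∧ ∀ z ∈ B, ‖z - x‖ < r → ∀ ε : ℝ, 0 < ε → ε < r →
      z + τ • (v - ε • u) ∈ interior B := by
  have hk := O.ylt x hx hl h1
  obtain ⟨c, hc⟩ := H.int
  have hlc := (O.lt_int H hc).2
  obtain ⟨τ, hτ, hτ'⟩ : ∃ τ : ℝ, 0 < τ ∧ 2 * τ = k y - k x :=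
    ⟨(k y - k x) / 2, by linarith, by ring⟩
  -- the neighbourhood of the midpoint
  have hlc' : Continuous l := cont_lin l
  have hkc : Continuous k := cont_lin k
  have hlm : l (x + τ • v) = l y := by rw [map_add, map_smul, O.lv, hl]; simp
  have hkm : k (x + τ • v) = k x + τ := by rw [map_add, map_smul, O.kv]; simp
  have hU : {w : E | (l y - l w) / (l y - l c) < 1 ∧
      (1 - (l y - l w) / (l y - l c)) * k x < k w - (l y - l w) / (l y - l c) * k c ∧
      k w - (l y - l w) / (l y - l c) * k c < (1 - (l y - l w) / (l y - l c)) * k y} ∈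
      𝓝 (x + τ • v) := by
    have e1 : ∀ᶠ w in 𝓝 (x + τ • v), 0 < 1 - (l y - l w) / (l y - l c) := by
      have : ContinuousAt (fun w => 1 - (l y - l w) / (l y - l c)) (x + τ • v) := by fun_prop
      apply this.eventually
      exact lt_mem_nhds (by simp only [hlm]; simp)
    have e2 : ∀ᶠ w in 𝓝 (x + τ • v), 0 < (k w - (l y - l w) / (l y - l c) * k c) -
        (1 - (l y - l w) / (l y - l c)) * k x := by
      have : ContinuousAt (fun w => (k w - (l y - l w) / (l y - l c) * k c) -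
        (1 - (l y - l w) / (l y - l c)) * k x) (x + τ • v) := by fun_prop
      apply this.eventually
      exact lt_mem_nhds (by simp only [hlm, hkm, sub_self, zero_div]; linarith)
    have e3 : ∀ᶠ w in 𝓝 (x + τ • v), 0 < (1 - (l y - l w) / (l y - l c)) * k y -
        (k w - (l y - l w) / (l y - l c) * k c) := by
      have : ContinuousAt (fun w => (1 - (l y - l w) / (l y - l c)) * k y -
        (k w - (l y - l w) / (l y - l c) * k c)) (x + τ • v) := by fun_prop
      apply this.eventually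
      exact lt_mem_nhds (by simp only [hlm, hkm, sub_self, zero_div]; linarith)
    filter_upwards [e1, e2, e3] with w a b c
    exact ⟨by linarith, by linarith, by linarith⟩
  obtain ⟨r, hr, hr'⟩ := near x u v τ hU
  refine ⟨r, hr, τ, hτ.ne', fun z hz hzx ε hε hεr => ?_⟩
  obtain ⟨a, b, c'⟩ := hr' z hzx ε hε hεr
  have hlw : l (z + τ • (v - ε • u)) < l y := by
    rw [map_add, map_smul, map_sub, map_smul, O.lv, O.lu]
    simp only [smul_eq_mul]
    have := O.le z hz
    nlinarith [mul_pos hτ hε]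
  exact O.between H hx hl hc hk a b c' hlw

/-- a line through a point strictly between the supporting lines meets the interior -/
theorem line_int {y P : E} {l k : E →ₗ[ℝ] ℝ} {u v : E} (H : PF B f h) (hd : Dual l k u v)
    (hy : y ∈ B) (hP : P ∈ B) {x : E} (hx1 : l P < l x) (hx2 : l x < l y) :
    ∃ τ : ℝ, τ ≠ 0 ∧ x + τ • v ∈ interior B := by
  have key : ∃ c ∈ interior B, l c = l x := by
    obtain ⟨c, hc⟩ := H.int
    rcases lt_trichotomy (l c) (l x) with hlt | heq | hgt
    · have hpos : 0 < l y - l c := by linarith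
      refine ⟨(1 - (l y - l x) / (l y - l c)) • y + ((l y - l x) / (l y - l c)) • c,
        H.seg_int hc hy (div_pos (by linarith) hpos) (by rw [div_le_one hpos]; linarith), ?_⟩
      simp only [map_add, map_smul, smul_eq_mul]
      field_simp
      ring
    · exact ⟨c, hc, heq⟩
    · have hpos : 0 < l c - l P := by linarith
      refine ⟨(1 - (l x - l P) / (l c - l P)) • P + ((l x - l P) / (l c - l P)) • c,
        H.seg_int hc hP (div_pos (by linarith) hpos) (by rw [div_le_one hpos]; linarith), ?_⟩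
      simp only [map_add, map_smul, smul_eq_mul]
      field_simp
      ring
  obtain ⟨c, hc, hlc⟩ := key
  have e : x + (k c - k x) • v = c := by
    apply hd.ext
    · rw [map_add, map_smul, hd.lv, hlc]; simp
    · rw [map_add, map_smul, hd.kv]; simp
  by_cases hτ : k c - k x = 0
  · rw [hτ, zero_smul, add_zero] at e
    rw [← e] at hc
    obtain ⟨t, ht, h1⟩ := H.in_of_int hc v
    exact ⟨t, ht.ne', h1⟩
  · exact ⟨_, hτ, by rw [e]; exact hc⟩

/-- away from the opposite corners `y, P` the directions `±(v - ε u)` lead into the interior,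
locally uniformly -/
theorem Opp.corner {y P u v : E} {l k : E →ₗ[ℝ] ℝ} (H : PF B f h) (O : Opp B y P l k u v)
    {x : E} (hx : x ∈ B) (h1 : x ≠ y) (h2 : x ≠ P) :
    ∃ r : ℝ, 0 < r ∧ ∃ τ : ℝ, τ ≠ 0 ∧ ∀ z ∈ B, ‖z - x‖ < r → ∀ ε : ℝ, 0 < ε → ε < r →
      z + τ • (v - ε • u) ∈ interior B := by
  rcases lt_or_eq_of_le (O.le x hx) with h3 | h3
  · rcases lt_or_eq_of_le (O.ge x hx) with h4 | h4
    · obtain ⟨τ, hτ, hm⟩ := line_int H O.toDual O.ymem O.Pmem h4 h3
      obtain ⟨r, hr, hr'⟩ := near x u v τ (isOpen_interior.mem_nhds hm)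
      exact ⟨r, hr, τ, hτ, fun z _ hzx ε hε hεr => hr' z hzx ε hε hεr⟩
    · obtain ⟨r, hr, τ, hτ, hh⟩ := O.swap.corner_one H hx h2 (by simp [h4])
      refine ⟨r, hr, -τ, neg_ne_zero.2 hτ, fun z hz hzx ε hε hεr => ?_⟩
      have := hh z hz hzx ε hε hεr
      have e : z + τ • (-v - ε • -u) = z + (-τ) • (v - ε • u) := by
        congr 1
        rw [neg_smul, ← smul_neg]
        congr 1
        rw [smul_neg]
        abel
      rwa [e] at this
  · exact O.corner_one H hx h1 h3

/-- the signed version -/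
theorem Opp.corner' {y P u v : E} {l k : E →ₗ[ℝ] ℝ} (H : PF B f h) (O : Opp B y P l k u v)
    {x : E} (hx : x ∈ B) (h1 : x ≠ y) (h2 : x ≠ P) :
    ∃ r : ℝ, 0 < r ∧ ∃ s : ℝ, (s = 1 ∨ s = -1) ∧ ∃ t : ℝ, 0 < t ∧ ∀ z ∈ B, ‖z - x‖ < r →
      ∀ ε : ℝ, 0 < ε → ε < r → z + t • (s • (v - ε • u)) ∈ interior B := by
  obtain ⟨r, hr, τ, hτ, hh⟩ := O.corner H hx h1 h2
  rcases lt_or_gt_of_ne hτ with h3 | h3
  · refine ⟨r, hr, -1, Or.inr rfl, -τ, by linarith, fun z hz hzx ε hε hεr => ?_⟩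
    have := hh z hz hzx ε hε hεr
    rwa [smul_smul, neg_mul_neg, mul_one]
  · refine ⟨r, hr, 1, Or.inl rfl, τ, h3, fun z hz hzx ε hε hεr => ?_⟩
    have := hh z hz hzx ε hε hεr
    rwa [one_smul]

/-- existence of the end of a face -/
theorem exists_end (H : PF B f h) {l k : E →ₗ[ℝ] ℝ} {u v x : E} (hd : Dual l k u v)
    (hx : x ∈ B) :
    ∃ y ∈ B, l y = l x ∧ (∀ z ∈ B, l z = l x → z ≠ y → k z < k y) ∧ k x ≤ k y := by
  have hcl : IsCompact (B ∩ {z | l z = l x}) :=
    H.cpt.inter_right (isClosed_eq (cont_lin l) continuous_const)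
  obtain ⟨y, ⟨hy1, hy2⟩, hmax⟩ := hcl.exists_isMaxOn ⟨x, hx, rfl⟩ (cont_lin k).continuousOn
  refine ⟨y, hy1, hy2, fun z hz hlz hne => ?_, hmax ⟨hx, rfl⟩⟩
  refine lt_of_le_of_ne (hmax ⟨hz, hlz⟩) fun heq => hne ?_
  exact hd.ext (by rw [hlz, hy2]) heq

/-- existence of the opposite corner -/
theorem exists_opp (H : PF B f h) {l k : E →ₗ[ℝ] ℝ} {u v y : E} (hd : Dual l k u v) (hy : y ∈ B)
    (hl : ∀ z ∈ B, l z ≤ l y) (hk : ∀ z ∈ B, l z = l y → z ≠ y → k z < k y) :
    ∃ P, Opp B y P l k u v := by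
  obtain ⟨x, hx, hmin⟩ := H.cpt.exists_isMinOn ⟨y, hy⟩ (cont_lin l).continuousOn
  obtain ⟨P, hP, hlP, hkP, _⟩ := exists_end H (l := -l) (k := -k) hd.neg hx
  have hlP' : l P = l x := by simpa using hlP
  refine ⟨P, ⟨hd, hy, hP, hl, fun z hz => ?_, hk, fun z hz hlz hne => ?_⟩⟩
  · rw [hlP']; exact hmin hz
  · have := hkP z hz (by simp [hlz, hlP']) hne
    simpa using this

/-- both ends of a face through a point -/
theorem mem_face_seg (H : PF B f h) {l k : E →ₗ[ℝ] ℝ} {u v x : E} (hd : Dual l k u v)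
    (hx : x ∈ B) :
    ∃ y ∈ B, ∃ y' ∈ B, l y = l x ∧ l y' = l x ∧
      (∀ z ∈ B, l z = l x → z ≠ y → k z < k y) ∧
      (∀ z ∈ B, l z = l x → z ≠ y' → (-k) z < (-k) y') ∧
      ∃ t : ℝ, 0 ≤ t ∧ t ≤ 1 ∧ x = (1 - t) • y + t • y' := by
  obtain ⟨y, hy, h1, h2, h3⟩ := exists_end H hd hx
  obtain ⟨y', hy', h1', h2', h3'⟩ := exists_end H hd.negk hx
  refine ⟨y, hy, y', hy', h1, h1', h2, h2', ?_⟩
  have h3'' : k y' ≤ k x := by simpa using h3'
  by_cases hyy : k y - k y' = 0
  · refine ⟨0, le_rfl, zero_le_one, ?_⟩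
    rw [sub_zero, one_smul, zero_smul, add_zero]
    exact hd.ext h1.symm (by linarith)
  · have hpos : 0 < k y - k y' := lt_of_le_of_ne (by linarith) (Ne.symm hyy)
    refine ⟨(k y - k x) / (k y - k y'), div_nonneg (by linarith) hpos.le, ?_, ?_⟩
    · rw [div_le_one hpos]; linarith
    · apply hd.ext
      · simp only [map_add, map_smul, smul_eq_mul, h1, h1']; ring
      · simp only [map_add, map_smul, smul_eq_mul]
        field_simp
        ring

/-- a corner is an extreme point -/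
theorem Opp.extreme {y P u v : E} {l k : E →ₗ[ℝ] ℝ} (O : Opp B y P l k u v)
    {a b : E} (ha : a ∈ B) (hb : b ∈ B) {t : ℝ} (ht0 : 0 < t) (ht1 : t < 1)
    (hy : y = (1 - t) • a + t • b) : a = y ∧ b = y := by
  have hla := O.le a ha
  have hlb := O.le b hb
  have e1 : l y = (1 - t) * l a + t * l b := by rw [hy]; simp
  have e2 : k y = (1 - t) * k a + t * k b := by rw [hy]; simp
  have hla' : l a = l y := by nlinarith
  have hlb' : l b = l y := by nlinarith
  have hka : k a ≤ k y := by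
    by_cases h : a = y
    · rw [h]
    · exact (O.ylt a ha hla' h).le
  have hkb : k b ≤ k y := by
    by_cases h : b = y
    · rw [h]
    · exact (O.ylt b hb hlb' h).le
  have hka' : k a = k y := by nlinarith
  have hkb' : k b = k y := by nlinarith
  exact ⟨O.toDual.ext hla' hka', O.toDual.ext hlb' hkb'⟩

end Pool.Agent.Lib.MP_5e7226_co.PS
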