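import Pool.Agent.Lib.MP_5e7226_co.PS.Cases

/-! The scheme for a flat piece over the opposite corners. -/

set_option autoImplicit false

open Set Filter Topology

namespace Pool.Agent.Lib.MP_5e7226_co.PS

variable {B : Set E} {f h : E → ℝ}

/-- Near a point `p` at which a functional `l` with `l a = 0` has a strict minimum on `B` and with
`f p > 0`, every rim point is illuminated by `(-a, 0)` or by `(a, ε)`. -/
theorem tangent_f (H : PP B f h) {l k : E →ₗ[ℝ] ℝ} {u a p : E} (hd : Dual l k u a) (hp : p ∈ B)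
    (hl : ∀ z ∈ B, z ≠ p → l p < l z) (hfp : 0 < f p) :
    ∃ r : ℝ, 0 < r ∧ ∀ z ∈ B, ‖z - p‖ < r → ∀ ε : ℝ, 0 < ε → ε < r → Rim f h z →
      Full B f h z (-a) 0 ∨ Full B f h z a ε := by
  obtain ⟨c, hc⟩ := H.int
  have hpr : ¬ Rim f h p := fun hr => by rw [hr.1] at hfp; exact lt_irrefl _ hfp
  by_cases hcp : c = p
  · -- then there are no rim points near `p`
    subst hcp
    obtain ⟨r, hr, hball⟩ := Metric.isOpen_iff.mp isOpen_interior _ hc
    refine ⟨r, hr, fun z _ hzp ε _ _ hrim => ?_⟩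
    exact absurd (hball (by rw [Metric.mem_ball, dist_eq_norm]; exact hzp)) (H.rim_not_int hrim)
  have hlc : 0 < l c - l p := by
    have := hl c (interior_subset hc) hcp
    linarith
  have lcont := cont_lin l
  have kcont := cont_lin k
  -- the parameter of the point of the segment from `p` to `c` at the level of `z`
  have e1 : ∀ᶠ z in 𝓝 p, (l z - l p) / (l c - l p) < 1 / 2 := by
    have : ContinuousAt (fun z => (l z - l p) / (l c - l p)) p := by fun_prop
    have h2 := this.eventually (gt_mem_nhds (show (fun z => (l z - l p) / (l c - l p)) p < 1 / 2 by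
      simp))
    exact h2
  have e2 : ∀ᶠ z in 𝓝 p, k ((1 - (l z - l p) / (l c - l p)) • p + ((l z - l p) / (l c - l p)) • c)
      - k z < 1 := by
    have : ContinuousAt (fun z => k ((1 - (l z - l p) / (l c - l p)) • p +
      ((l z - l p) / (l c - l p)) • c) - k z) p := by fun_prop
    have h2 := this.eventually (gt_mem_nhds (show (fun z => k ((1 - (l z - l p) / (l c - l p)) • p +
      ((l z - l p) / (l c - l p)) • c) - k z) p < 1 by simp))
    exact h2
  have e3 := e1.and e2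
  rw [Metric.eventually_nhds_iff] at e3
  obtain ⟨r, hr, hh⟩ := e3
  refine ⟨min r (f p / 2), lt_min hr (by linarith), fun z hz hzp ε hε hεr hrim => ?_⟩
  obtain ⟨b1, b2⟩ := hh (y := z) (by rw [dist_eq_norm]; exact hzp.trans_le (min_le_left _ _))
  have hεf : ε < f p / 2 := hεr.trans_le (min_le_right _ _)
  have hzne : z ≠ p := fun he => hpr (he ▸ hrim)
  have hlz := hl z hz hzne
  set γ : ℝ := (l z - l p) / (l c - l p) with hγ
  have hγ0 : 0 < γ := div_pos (by linarith) hlc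
  have hγe : γ * (l c - l p) = l z - l p := by rw [hγ, div_mul_cancel₀ _ hlc.ne']
  set g : E := (1 - γ) • p + γ • c with hg
  have hgint : g ∈ interior B := H.seg_int hc hp hγ0 (by linarith)
  have hgf : f p / 2 < f g := by
    have h1 := H.fconc.2 hp (interior_subset hc) (show 0 ≤ 1 - γ by linarith) hγ0.le (by ring)
    have h2 := H.fpos c hc
    simp only [smul_eq_mul] at h1
    have h3 : 0 < γ * f c := mul_pos hγ0 h2
    rw [← hg] at h1
    nlinarith
  have hgz : z + (k g - k z) • a = g := by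
    apply hd.ext
    · simp only [map_add, map_smul, smul_eq_mul, hg, hd.lv]
      linear_combination (-1 : ℝ) * hγe
    · rw [map_add, map_smul, hd.kv]; simp
  rcases lt_trichotomy (k g - k z) 0 with ht | ht | ht
  · left
    apply full_rim H hrim (t := -(k g - k z)) (by linarith)
    rw [smul_neg, neg_smul, neg_neg, hgz]
    exact hgint
  · exfalso
    rw [ht, zero_smul, add_zero] at hgz
    rw [← hgz] at hgint
    exact H.rim_not_int hrim hgint
  · right
    have hgm := interior_subset hgint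
    refine ⟨⟨_, ht, by rw [hgz]; exact hgint⟩, ⟨_, ht, by rw [hgz]; exact hgm, ?_⟩,
      ⟨_, ht, by rw [hgz]; exact hgm, ?_⟩⟩
    · rw [hgz, hrim.1]
      nlinarith
    · rw [hgz, hrim.2]
      have := H.hpos g hgint
      have := mul_pos ht hε
      linarith

/-- Near a nonrim point `p` at which a functional `l` with `l a = 0` has a strict minimum on `B`,
every rim point is illuminated by `(-a, 0)` or by `(a, ε)` or by `(a, -ε)`. -/
theorem tangent_fh (H : PP B f h) {l k : E →ₗ[ℝ] ℝ} {u a p : E} (hd : Dual l k u a) (hp : p ∈ B)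
    (hl : ∀ z ∈ B, z ≠ p → l p < l z) (hnr : ¬ Rim f h p) :
    ∃ r : ℝ, 0 < r ∧ ∀ z ∈ B, ‖z - p‖ < r → ∀ ε : ℝ, 0 < ε → ε < r → Rim f h z →
      Full B f h z (-a) 0 ∨ Full B f h z a ε ∨ Full B f h z a (-ε) := by
  rcases lt_or_eq_of_le (H.f0 p hp) with h1 | h1
  · obtain ⟨r, hr, hh⟩ := tangent_f H hd hp hl h1
    refine ⟨r, hr, fun z hz hzp ε hε hεr hrim => ?_⟩
    rcases hh z hz hzp ε hε hεr hrim with h2 | h2
    · exact Or.inl h2
    · exact Or.inr (Or.inl h2)
  rcases lt_or_eq_of_le (H.h0 p hp) with h2 | h2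
  · obtain ⟨r, hr, hh⟩ := tangent_f H.flip hd hp hl h2
    refine ⟨r, hr, fun z hz hzp ε hε hεr hrim => ?_⟩
    rcases hh z hz hzp ε hε hεr hrim.flip with ⟨h2, h3, h4⟩ | ⟨h2, h3, h4⟩
    · exact Or.inl ⟨h2, by simpa using h4, by simpa using h3⟩
    · exact Or.inr (Or.inr ⟨h2, h4, by simpa using h3⟩)
  · exact absurd ⟨h1.symm, h2.symm⟩ hnr

/-- Scheme γ. -/
theorem caseGamma {y P u v : E} {l k : E →ₗ[ℝ] ℝ} (H : PP B f h) (O : Opp B y P l k u v)
    (hy : Rim f h y) {a b u' x₁ x₂ : E} {l' k' : E →ₗ[ℝ] ℝ} (hd : Dual l' k' u' a)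
    (hx₁ : x₁ ∈ B) (hx₂ : x₂ ∈ B) (hl₁ : ∀ z ∈ B, z ≠ x₁ → l' z < l' x₁)
    (hl₂ : ∀ z ∈ B, z ≠ x₂ → l' x₂ < l' z)
    (hb₁ : Rim f h x₁ → IN B x₁ b) (hb₂ : Rim f h x₂ → IN B x₂ b)
    {F₀ H₀ : ℝ} (hF : ∀ x ∈ B, f x ≤ F₀) (hH : ∀ x ∈ B, h x ≤ H₀)
    {t₀ : ℝ} (ht₀ : 0 < t₀)
    (hflat : ∀ᶠ w in 𝓝 (P + t₀ • a), w ∈ interior B ∧ f w = F₀ ∧ h w = H₀) :
    Good B f h := by
  set D : ℝ → List (E × ℝ) := fun ε => steep u v ε ++ [(a, ε), (a, -ε), (-a, 0), (b, 0)]
    with hDdef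
  -- rim points
  have rimPart : ∀ x ∈ B, ∃ r : ℝ, 0 < r ∧ ∀ z ∈ B, ‖z - x‖ < r → ∀ ε : ℝ, 0 < ε → ε < r →
      Rim f h z → ∃ d ∈ D ε, Full B f h z d.1 d.2 := by
    have tang : ∀ p ∈ B, ¬ Rim f h p → ∀ {l₂ k₂ : E →ₗ[ℝ] ℝ} {u₂ a₂ : E}, Dual l₂ k₂ u₂ a₂ →
        (a₂ = a) → (∀ z ∈ B, z ≠ p → l₂ p < l₂ z) →
        ∃ r : ℝ, 0 < r ∧ ∀ z ∈ B, ‖z - p‖ < r → ∀ ε : ℝ, 0 < ε → ε < r →
          Rim f h z → ∃ d ∈ D ε, Full B f h z d.1 d.2 := by
      intro p hp hnr l₂ k₂ u₂ a₂ hd₂ ha₂ hl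
      subst ha₂
      obtain ⟨r, hr, hh⟩ := tangent_fh H hd₂ hp hl hnr
      refine ⟨r, hr, fun z hz hzp ε hε hεr hrim => ?_⟩
      rcases hh z hz hzp ε hε hεr hrim with h1 | h1 | h1
      · exact ⟨(-a₂, 0), by simp [hDdef], h1⟩
      · exact ⟨(a₂, ε), by simp [hDdef], h1⟩
      · exact ⟨(a₂, -ε), by simp [hDdef], h1⟩
    intro x hx
    by_cases hxx₁ : x = x₁
    · subst hxx₁
      by_cases hr : Rim f h x
      · obtain ⟨r, hr', hh⟩ := loc1 H.toPF hx (full_rim' H hr (hb₁ hr))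
        exact ⟨r, hr', fun z hz hzx ε _ _ _ => ⟨(b, 0), by simp [hDdef],
          hh z hz hzx 0 (by simpa using hr')⟩⟩
      · -- use the functional `-l'`, with dual basis `(-u', a)`
        have hd₂ : Dual (-l') k' (-u') a := by
          refine ⟨by simp [hd.lu], by simp [hd.lv], by simp [hd.ku], hd.kv, fun z => ?_⟩
          have := hd.dec z
          simpa using this
        exact tang x hx hr hd₂ rfl (fun z hz hne => by simpa using hl₁ z hz hne)
    by_cases hxx₂ : x = x₂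
    · subst hxx₂
      by_cases hr : Rim f h x
      · obtain ⟨r, hr', hh⟩ := loc1 H.toPF hx (full_rim' H hr (hb₂ hr))
        exact ⟨r, hr', fun z hz hzx ε _ _ _ => ⟨(b, 0), by simp [hDdef],
          hh z hz hzx 0 (by simpa using hr')⟩⟩
      · exact tang x hx hr hd rfl hl₂
    obtain ⟨τ, hτ, hint⟩ := line_int H.toPF hd hx₁ hx₂ (hl₂ x hx hxx₂) (hl₁ x hx hxx₁)
    rcases lt_or_gt_of_ne hτ with hτ' | hτ'
    · -- direction `-a`
      have hcont : ContinuousAt (fun y : E => y + τ • a) x := by fun_prop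
      have e1 : ∀ᶠ y in 𝓝 x, y + τ • a ∈ interior B :=
        hcont.eventually (isOpen_interior.mem_nhds hint)
      rw [Metric.eventually_nhds_iff] at e1
      obtain ⟨r, hr, hh⟩ := e1
      refine ⟨r, hr, fun z hz hzx ε _ _ hrim => ⟨(-a, 0), by simp [hDdef], ?_⟩⟩
      apply full_rim H hrim (t := -τ) (by linarith)
      rw [smul_neg, neg_smul, neg_neg]
      exact hh (by rw [dist_eq_norm]; exact hzx)
    · have hcont : ContinuousAt (fun y : E => y + τ • a) x := by fun_prop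
      have e1 : ∀ᶠ y in 𝓝 x, y + τ • a ∈ interior B :=
        hcont.eventually (isOpen_interior.mem_nhds hint)
      have hp := H.fpos _ hint
      have e2 : ∀ᶠ y in 𝓝 x, f (x + τ • a) / 2 < f (y + τ • a) := by
        have := (cont_int H.toPF hint).comp_of_eq hcont rfl
        exact this.eventually (lt_mem_nhds (by simp only [Function.comp]; linarith))
      have e3 := e1.and e2
      rw [Metric.eventually_nhds_iff] at e3
      obtain ⟨r, hr, hh⟩ := e3
      refine ⟨min r (f (x + τ • a) / 2 / τ), lt_min hr (by positivity),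
        fun z hz hzx ε hε hεr hrim => ⟨(a, ε), by simp [hDdef], ?_⟩⟩
      obtain ⟨i1, i2⟩ := hh (y := z) (by rw [dist_eq_norm]; exact hzx.trans_le (min_le_left _ _))
      have hεt : ε * τ < f (x + τ • a) / 2 := by
        have := hεr.trans_le (min_le_right _ _)
        rwa [lt_div_iff₀ hτ'] at this
      have hzm := interior_subset i1
      refine ⟨⟨τ, hτ', i1⟩, ⟨τ, hτ', hzm, ?_⟩, ⟨τ, hτ', hzm, ?_⟩⟩
      · rw [hrim.1]; linarith
      · rw [hrim.2]
        have := H.h0 _ hzm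
        have := mul_pos hτ' hε
        simp only
        linarith
  refine good_of_loc H.toPF D (fun ε => by simp [hDdef, steep]) ?_
  intro x hx
  by_cases h1 : x = y
  · subst h1
    -- all points near `y`
    by_cases hxx₁ : x = x₁
    · exact loc_cov H hx hy (hxx₁ ▸ hb₁ (hxx₁ ▸ hy)) _ (fun ε => by simp [hDdef])
    by_cases hxx₂ : x = x₂
    · exact loc_cov H hx hy (hxx₂ ▸ hb₂ (hxx₂ ▸ hy)) _ (fun ε => by simp [hDdef])
    obtain ⟨τ, hτ, hint⟩ := line_int H.toPF hd hx₁ hx₂ (hl₂ x hx hxx₂) (hl₁ x hx hxx₁)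
    rcases lt_or_gt_of_ne hτ with hτ' | hτ'
    · refine loc_cov H hx hy (a := -a) ⟨-τ, by linarith, ?_⟩ _ (fun ε => by simp [hDdef])
      rw [smul_neg, neg_smul, neg_neg]
      exact hint
    · obtain ⟨r, hr, hh⟩ := loc1 H.toPF hx (full_rim H hy hτ' hint)
      refine ⟨r, hr, fun z hz hzx ε hε hεr => ?_⟩
      refine cov_of_full (d := (a, ε)) (by simp [hDdef]) (hh z hz hzx ε ?_)
      rw [sub_zero, abs_of_pos hε]
      exact hεr
  obtain ⟨r₁, hr₁, hh₁⟩ := rimPart x hx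
  by_cases h2 : x = P
  · subst h2
    have hcont : ContinuousAt (fun y : E => y + t₀ • a) x := by fun_prop
    have e1 : ∀ᶠ y in 𝓝 x, (y + t₀ • a) ∈ interior B ∧ f (y + t₀ • a) = F₀ ∧
        h (y + t₀ • a) = H₀ := hcont.eventually hflat
    rw [Metric.eventually_nhds_iff] at e1
    obtain ⟨r, hr, hh⟩ := e1
    refine ⟨min r r₁, lt_min hr hr₁, fun z hz hzx ε hε hεr => ?_⟩
    apply cov_of H.toPF hz (hh₁ z hz (hzx.trans_le (min_le_right _ _)) ε hε
      (hεr.trans_le (min_le_right _ _)))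
    intro _
    obtain ⟨i1, i2, i3⟩ := hh (y := z) (by rw [dist_eq_norm]; exact hzx.trans_le (min_le_left _ _))
    have hpos := mul_pos ht₀ hε
    refine ⟨⟨(a, -ε), by simp [hDdef], ⟨t₀, ht₀, i1⟩, ⟨t₀, ht₀, interior_subset i1, ?_⟩⟩,
      ⟨(a, ε), by simp [hDdef], ⟨t₀, ht₀, i1⟩, ⟨t₀, ht₀, interior_subset i1, ?_⟩⟩⟩
    · have := hF z hz
      simp only
      rw [i2]; linarith
    · have := hH z hz
      simp only
      rw [i3]; linarith
  obtain ⟨r, hr, hh⟩ := steep_cov H.toPF O hx h1 h2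
  refine ⟨min r r₁, lt_min hr hr₁, fun z hz hzx ε hε hεr => ?_⟩
  apply cov_of H.toPF hz (hh₁ z hz (hzx.trans_le (min_le_right _ _)) ε hε
    (hεr.trans_le (min_le_right _ _)))
  intro _
  obtain ⟨⟨d, hd, a⟩, ⟨d', hd', a'⟩⟩ := hh z hz (hzx.trans_le (min_le_left _ _)) ε hε
    (hεr.trans_le (min_le_left _ _))
  exact ⟨⟨d, List.mem_append_left _ hd, a⟩, ⟨d', List.mem_append_left _ hd', a'⟩⟩

end Pool.Agent.Lib.MP_5e7226_co.PS
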