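import Pool.Agent.Lib.MP_5e7226_co.PS.Corner

/-! Generic directions. -/

set_option autoImplicit false

open Set Filter Topology

namespace Pool.Agent.Lib.MP_5e7226_co.PS

variable {B : Set E} {f h : E → ℝ}

theorem dual_of_det (a b : E) (hdet : a.1 * b.2 - a.2 * b.1 ≠ 0) :
    ∃ α β : E →ₗ[ℝ] ℝ, Dual α β a b := by
  obtain ⟨a1, a2⟩ := a
  obtain ⟨b1, b2⟩ := b
  simp only at hdet
  set d : ℝ := a1 * b2 - a2 * b1 with hd
  refine ⟨(b2 / d) • LinearMap.fst ℝ ℝ ℝ + (-b1 / d) • LinearMap.snd ℝ ℝ ℝ,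
    (-a2 / d) • LinearMap.fst ℝ ℝ ℝ + (a1 / d) • LinearMap.snd ℝ ℝ ℝ, ⟨?_, ?_, ?_, ?_, ?_⟩⟩
  · simp; field_simp; linarith
  · simp; field_simp; ring
  · simp; field_simp; ring
  · simp; field_simp; linarith
  · intro x
    ext
    · simp
      field_simp
      rw [hd]; ring
    · simp
      field_simp
      rw [hd]; ring

theorem dual_of_vec {a : E} (ha : a ≠ 0) : ∃ (b : E) (α β : E →ₗ[ℝ] ℝ), Dual α β a b := by
  refine ⟨(-a.2, a.1), dual_of_det _ _ ?_⟩
  intro h0
  apply ha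
  simp only at h0
  have h1 : a.1 ^ 2 + a.2 ^ 2 = 0 := by linarith
  have h2 : a.1 = 0 := by nlinarith [sq_nonneg a.1, sq_nonneg a.2]
  have h3 : a.2 = 0 := by nlinarith [sq_nonneg a.1, sq_nonneg a.2]
  exact Prod.ext h2 h3

theorem countable_bad (H : PF B f h) {α β : E →ₗ[ℝ] ℝ} {a b : E} (hd : Dual α β a b) :
    {s : ℝ | ¬ ∃ x ∈ B, ∀ z ∈ B, z ≠ x → (β - s • α) z < (β - s • α) x}.Countable := by
  obtain ⟨c, hc⟩ := H.int
  have hex : ∀ s : ℝ, ∃ x ∈ B, ∀ z ∈ B, (β - s • α) z ≤ (β - s • α) x := by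
    intro s
    obtain ⟨x, hx, hmax⟩ := H.cpt.exists_isMaxOn ⟨c, interior_subset hc⟩
      (cont_lin (β - s • α)).continuousOn
    exact ⟨x, hx, fun z hz => hmax hz⟩
  choose X hX hmax using hex
  have key : ∀ s t : ℝ, s < t → ∀ x ∈ B, ∀ y ∈ B, (∀ z ∈ B, (β - s • α) z ≤ (β - s • α) x) →
      (∀ z ∈ B, (β - t • α) z ≤ (β - t • α) y) → α y ≤ α x := by
    intro s t hst x hx y hy h1 h2
    have a1 := h1 y hy
    have a2 := h2 x hx
    simp only [LinearMap.sub_apply, LinearMap.smul_apply, smul_eq_mul] at a1 a2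
    nlinarith
  have hA : Antitone (fun s => α (X s)) := by
    intro s t hst
    rcases eq_or_lt_of_le hst with rfl | hst
    · exact le_rfl
    · exact key s t hst _ (hX s) _ (hX t) (hmax s) (hmax t)
  refine hA.countable_not_continuousAt.mono ?_
  intro s hs
  rw [mem_ofPred_eq]
  intro hcont
  apply hs
  refine ⟨X s, hX s, fun z hz hne => ?_⟩
  refine lt_of_le_of_ne (hmax s z hz) fun heq => ?_
  have hzmax : ∀ w ∈ B, (β - s • α) w ≤ (β - s • α) z := fun w hw => by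
    rw [heq]; exact hmax s w hw
  rcases lt_trichotomy (α z) (α (X s)) with h1 | h1 | h1
  · have h2 := hcont.eventually (lt_mem_nhds h1)
    rw [Metric.eventually_nhds_iff] at h2
    obtain ⟨r, hr, hr'⟩ := h2
    have h3 := hr' (y := s + r / 2) (by
      rw [Real.dist_eq, add_sub_cancel_left, abs_of_pos (by positivity)]; linarith)
    have h4 := key s (s + r / 2) (by linarith) z hz _ (hX _) hzmax (hmax _)
    exact absurd h3 (not_lt.2 h4)
  · simp only [LinearMap.sub_apply, LinearMap.smul_apply, smul_eq_mul, h1] at heq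
    exact hne (hd.ext h1 (by linarith))
  · have h2 := hcont.eventually (gt_mem_nhds h1)
    rw [Metric.eventually_nhds_iff] at h2
    obtain ⟨r, hr, hr'⟩ := h2
    have h3 := hr' (y := s - r / 2) (by
      rw [Real.dist_eq, sub_sub_cancel_left, abs_neg, abs_of_pos (by positivity)]; linarith)
    have h4 := key (s - r / 2) s (by linarith) _ (hX _) z hz (hmax _) hzmax
    exact absurd h3 (not_lt.2 h4)

/-- a generic direction near `a` has unique tangent points -/
theorem exists_generic (H : PF B f h) {α β : E →ₗ[ℝ] ℝ} {a b : E} (hd : Dual α β a b) {r : ℝ}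
    (hr : 0 < r) :
    ∃ s : ℝ, 0 < s ∧ s < r ∧ Dual (β - s • α) α b (a + s • b) ∧
      ∃ x₁ ∈ B, ∃ x₂ ∈ B, (∀ z ∈ B, z ≠ x₁ → (β - s • α) z < (β - s • α) x₁) ∧
        (∀ z ∈ B, z ≠ x₂ → (β - s • α) x₂ < (β - s • α) z) := by
  have h1 := countable_bad H hd
  have h2 := countable_bad H hd.neg
  have h3 := (h1.union h2).dense_compl ℝ
  obtain ⟨s, hs4, hs1, hs2⟩ := h3.exists_mem_open (isOpen_Ioo (a := (0 : ℝ)) (b := r))
    (nonempty_Ioo.2 hr)
  rw [compl_union, mem_inter_iff, mem_compl_iff, mem_compl_iff, mem_ofPred_eq, mem_ofPred_eq,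
    not_not, not_not] at hs4
  obtain ⟨⟨x₁, hx₁, hm₁⟩, ⟨x₂, hx₂, hm₂⟩⟩ := hs4
  refine ⟨s, hs1, hs2, ⟨?_, ?_, ?_, ?_, ?_⟩, x₁, hx₁, x₂, hx₂, hm₁, fun z hz hne => ?_⟩
  · simp [hd.kv, hd.lv]
  · simp [hd.kv, hd.lv, hd.lu, hd.ku]
  · exact hd.lv
  · simp [hd.lu, hd.lv]
  · intro x
    have := hd.dec x
    conv_rhs => rw [← this]
    simp only [LinearMap.sub_apply, LinearMap.smul_apply, smul_eq_mul, smul_add, sub_smul,
      smul_smul]
    rw [mul_comm s (α x)]
    abel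
  · have := hm₂ z hz hne
    simp only [LinearMap.sub_apply, LinearMap.smul_apply, smul_eq_mul, LinearMap.neg_apply] at this ⊢
    linarith

/-- Hahn–Banach: inward directions -/
theorem IN_of_forall (H : PF B f h) {y a : E} (hy : y ∈ B)
    (hh : ∀ l : E →ₗ[ℝ] ℝ, l ≠ 0 → (∀ x ∈ B, l x ≤ l y) → l a < 0) : IN B y a := by
  by_contra hcon
  have hconv : Convex ℝ {z : E | ∃ t : ℝ, 0 < t ∧ z = y + t • a} := by
    rintro _ ⟨t, ht, rfl⟩ _ ⟨t', ht', rfl⟩ p q hp hq hpq
    refine ⟨p * t + q * t', ?_, ?_⟩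
    · rcases lt_or_eq_of_le hp with h1 | h1
      · have := mul_pos h1 ht
        have := mul_nonneg hq ht'.le
        linarith
      · rw [← h1, zero_add] at hpq
        rw [← h1, hpq]; linarith
    · rw [smul_add, smul_add, smul_smul, smul_smul, add_smul]
      have : y = p • y + q • y := by rw [← add_smul, hpq, one_smul]
      conv_rhs => rw [this]
      abel
  have hdisj : Disjoint (interior B) {z : E | ∃ t : ℝ, 0 < t ∧ z = y + t • a} := by
    rw [Set.disjoint_left]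
    rintro z hz ⟨t, ht, rfl⟩
    exact hcon ⟨t, ht, hz⟩
  obtain ⟨g, u, h1, h2⟩ := geometric_hahn_banach_open H.conv.interior isOpen_interior hconv hdisj
  obtain ⟨c, hc⟩ := H.int
  have h3 : ∀ t : ℝ, 0 < t → u ≤ g y + t * g a := by
    intro t ht
    have := h2 (y + t • a) ⟨t, ht, rfl⟩
    simpa using this
  have h4 : u ≤ g y := by
    by_contra hlt
    push Not at hlt
    obtain ⟨t, ht, ht'⟩ : ∃ t : ℝ, 0 < t ∧ t * (|g a| + 1) = (u - g y) / 2 :=
      ⟨(u - g y) / 2 / (|g a| + 1), by have := abs_nonneg (g a); apply div_pos <;> linarith, by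
        have := abs_nonneg (g a)
        rw [div_mul_cancel₀]; positivity⟩
    have h5 := h3 t ht
    have h6 : t * g a ≤ t * (|g a| + 1) :=
      mul_le_mul_of_nonneg_left (by have := le_abs_self (g a); linarith) ht.le
    linarith
  have h5 : ∀ x ∈ B, g x ≤ u := by
    intro x hx
    by_contra hlt
    push Not at hlt
    have hcu := h1 c hc
    -- a point of the segment
    have hpos : 0 < g x - g c := by linarith
    have h6 := h1 _ (H.seg_int hc hx (t := (g x - u) / (g x - g c)) (div_pos (by linarith) hpos)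
      (by rw [div_le_one hpos]; linarith))
    rw [map_add, map_smul, map_smul, smul_eq_mul, smul_eq_mul] at h6
    have h7 : (1 - (g x - u) / (g x - g c)) * g x + (g x - u) / (g x - g c) * g c = u := by
      field_simp
      ring
    linarith
  have h6 : (g : E →ₗ[ℝ] ℝ) ≠ 0 := by
    intro h0
    have h7 : ∀ x, g x = 0 := fun x => by
      have := congrArg (fun q : E →ₗ[ℝ] ℝ => q x) h0
      simpa using this
    have h8 := h1 c hc
    rw [h7] at h8
    rw [h7] at h4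
    linarith
  have h7 := hh (g : E →ₗ[ℝ] ℝ) h6 (fun x hx => (h5 x hx).trans h4)
  have h8 : g a < 0 := by simpa using h7
  have h9 := h3 1 one_pos
  have h10 := h5 y hy
  linarith

/-- `IN` and `UP` are open in the direction -/
theorem dir_open (H : PF B f h) {x v : E} {w : ℝ} (hx : x ∈ B) (hin : IN B x v)
    (hf : UP B f x v w) :
    ∃ r : ℝ, 0 < r ∧ ∀ v' : E, ‖v' - v‖ < r → IN B x v' ∧ UP B f x v' w := by
  obtain ⟨r1, hr1, h1⟩ := IN.small H hx hin
  obtain ⟨r2, hr2, h2⟩ := UP.small H hx hf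
  obtain ⟨t, ht, ht1, ht2⟩ : ∃ t : ℝ, 0 < t ∧ t ≤ r1 ∧ t ≤ r2 :=
    ⟨min r1 r2, by positivity, min_le_left _ _, min_le_right _ _⟩
  have hint := h1 t ht ht1
  obtain ⟨_, hlt⟩ := h2 t ht ht2
  have hcont : ContinuousAt (fun v' : E => x + t • v') v := by fun_prop
  have e1 : ∀ᶠ v' in 𝓝 v, x + t • v' ∈ interior B :=
    hcont.eventually (isOpen_interior.mem_nhds hint)
  have e2 : ∀ᶠ v' in 𝓝 v, f x + t * w < f (x + t • v') := by
    have := (cont_int H hint).comp_of_eq hcont rfl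
    exact this.eventually (lt_mem_nhds hlt)
  have e3 := e1.and e2
  rw [Metric.eventually_nhds_iff] at e3
  obtain ⟨r, hr, hr'⟩ := e3
  refine ⟨r, hr, fun v' hv' => ?_⟩
  obtain ⟨i1, i2⟩ := hr' (y := v') (by rw [dist_eq_norm]; exact hv')
  exact ⟨⟨t, ht, i1⟩, ⟨t, ht, interior_subset i1, i2⟩⟩

theorem in_open {x v : E} (hin : IN B x v) :
    ∃ r : ℝ, 0 < r ∧ ∀ v' : E, ‖v' - v‖ < r → IN B x v' := by
  obtain ⟨t, ht, hint⟩ := hin
  have hcont : ContinuousAt (fun v' : E => x + t • v') v := by fun_prop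
  have e1 : ∀ᶠ v' in 𝓝 v, x + t • v' ∈ interior B :=
    hcont.eventually (isOpen_interior.mem_nhds hint)
  rw [Metric.eventually_nhds_iff] at e1
  obtain ⟨r, hr, hr'⟩ := e1
  exact ⟨r, hr, fun v' hv' => ⟨t, ht, hr' (by rw [dist_eq_norm]; exact hv')⟩⟩

end Pool.Agent.Lib.MP_5e7226_co.PS
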