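import Pool.Agent.Lib.MP_5e7226_co.PS.Two
import Pool.Agent.Lib.MP_5e7226_co.PS.Gamma

/-! Eight directions suffice for a convex body with a planar shadow boundary. -/

set_option autoImplicit false

open Set Filter Topology

namespace Pool.Agent.Lib.MP_5e7226_co.PS

variable {B : Set E} {f h : E → ℝ}

/-- a rim point lies on the boundary, so it has a supporting functional -/
theorem exists_support (H : PP B f h) {y : E} (hy : y ∈ B) (hr : Rim f h y) :
    ∃ l : E →ₗ[ℝ] ℝ, l ≠ 0 ∧ ∀ x ∈ B, l x ≤ l y := by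
  by_contra hcon
  push Not at hcon
  have hin : IN B y 0 := IN_of_forall H.toPF hy (fun l hl hmax => by
    obtain ⟨x, hx, h1⟩ := hcon l hl
    exact absurd (hmax x hx) (not_le.2 h1))
  obtain ⟨t, _, h1⟩ := hin
  rw [smul_zero, add_zero] at h1
  exact H.rim_not_int hr h1

/-- both tangent points of a generic direction are not rim points, if scheme A does not apply -/
theorem not_both (hA : ∀ P, PSet B f h P → ¬ Rim f h P) {l k : E →ₗ[ℝ] ℝ} {u v x₁ x₂ : E}
    (hd : Dual l k u v) (hx₁ : x₁ ∈ B) (hx₂ : x₂ ∈ B) (h₁ : ∀ z ∈ B, z ≠ x₁ → l z < l x₁)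
    (h₂ : ∀ z ∈ B, z ≠ x₂ → l x₂ < l z) : ¬ (Rim f h x₁ ∧ Rim f h x₂) := by
  rintro ⟨r1, r2⟩
  refine hA x₂ ⟨x₁, l, k, u, v, ⟨hd, hx₁, hx₂, ?_, ?_, ?_, ?_⟩, r1⟩ r2
  · intro x hx
    by_cases he : x = x₁
    · rw [he]
    · exact (h₁ x hx he).le
  · intro x hx
    by_cases he : x = x₂
    · rw [he]
    · exact (h₂ x hx he).le
  · intro x hx hle hne
    have := h₁ x hx hne
    linarith
  · intro x hx hle hne
    have := h₂ x hx hne
    linarith

theorem exists_b (H : PP B f h) {x₁ x₂ : E} (hnb : ¬ (Rim f h x₁ ∧ Rim f h x₂)) :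
    ∃ b : E, (Rim f h x₁ → IN B x₁ b) ∧ (Rim f h x₂ → IN B x₂ b) := by
  obtain ⟨c, hc⟩ := H.int
  by_cases hr : Rim f h x₁
  · exact ⟨c - x₁, fun _ => in_center H.toPF hc, fun hr2 => absurd ⟨hr, hr2⟩ hnb⟩
  · exact ⟨c - x₂, fun hr1 => absurd hr1 hr, fun _ => in_center H.toPF hc⟩

/-- scheme β applies as soon as `UP f` holds at some opposite corner -/
theorem beta (H : PP B f h) (hA : ∀ P, PSet B f h P → ¬ Rim f h P) {P a : E}
    (hP : PSet B f h P) (h1 : IN B P a) (h2 : UP B f P a 0) : Good B f h := by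
  obtain ⟨y, l, k, u, v, O, hy⟩ := hP
  have ha : a ≠ 0 := by
    rintro rfl
    obtain ⟨t, _, _, h3⟩ := h2
    simp at h3
  obtain ⟨r, hr, hopen⟩ := dir_open H.toPF O.Pmem h1 h2
  obtain ⟨b, α, β, hd⟩ := dual_of_vec ha
  have hb : 0 < ‖b‖ + 1 := by positivity
  obtain ⟨s, hs0, hs1, hd', x₁, hx₁, x₂, hx₂, hm₁, hm₂⟩ := exists_generic H.toPF hd
    (r := r / (‖b‖ + 1)) (by positivity)
  rw [lt_div_iff₀ hb] at hs1
  obtain ⟨i1, i2⟩ := hopen (a + s • b) (by
    rw [add_sub_cancel_left, norm_smul, Real.norm_eq_abs, abs_of_pos hs0]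
    nlinarith [norm_nonneg b])
  obtain ⟨b', hb1, hb2⟩ := exists_b H (not_both hA hd' hx₁ hx₂ hm₁ hm₂)
  refine caseBeta H O hy (a₁ := a + s • b) (a₂ := -(a + s • b)) (a₃ := b') ?_ i1 i2
  intro z hz hrz
  by_cases e1 : z = x₁
  · subst e1; exact Or.inr (Or.inr (hb1 hrz))
  by_cases e2 : z = x₂
  · subst e2; exact Or.inr (Or.inr (hb2 hrz))
  obtain ⟨τ, hτ, hint⟩ := line_int H.toPF hd' hx₁ hx₂ (hm₂ z hz e2) (hm₁ z hz e1)
  rcases lt_or_gt_of_ne hτ with hτ' | hτ'
  · exact Or.inr (Or.inl ⟨-τ, by linarith, by rw [smul_neg, neg_smul, neg_neg]; exact hint⟩)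
  · exact Or.inl ⟨τ, hτ', hint⟩

theorem PSet.flip {P : E} (hP : PSet B h f P) : PSet B f h P := by
  obtain ⟨y, l, k, u, v, O, hy⟩ := hP
  exact ⟨y, l, k, u, v, O, hy.flip⟩

theorem PSet.mem {P : E} (hP : PSet B f h P) : P ∈ B := by
  obtain ⟨y, l, k, u, v, O, _⟩ := hP
  exact O.Pmem

theorem PSet.extreme {P : E} (hP : PSet B f h P) {a b : E} (ha : a ∈ B) (hb : b ∈ B) {t : ℝ}
    (ht0 : 0 < t) (ht1 : t < 1) (he : P = (1 - t) • a + t • b) : a = P ∧ b = P := by
  obtain ⟨y, l, k, u, v, O, _⟩ := hP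
  exact O.swap.extreme ha hb ht0 ht1 he

/-- if `UP f` fails at `P` in all inward directions then `f` is maximal at `P` -/
theorem max_of_not_up (H : PP B f h) {P : E} (hP : P ∈ B)
    (hn : ∀ a, IN B P a → ¬ UP B f P a 0) : ∀ x ∈ B, f x ≤ f P := by
  have h1 : ∀ x ∈ interior B, f x ≤ f P := by
    intro x hx
    by_contra hlt
    push Not at hlt
    refine hn (x - P) (in_center H.toPF hx) ⟨1, one_pos, ?_, ?_⟩
    · rw [one_smul, add_sub_cancel]; exact interior_subset hx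
    · rw [one_smul, add_sub_cancel, mul_zero, add_zero]; exact hlt
  intro x hx
  obtain ⟨c, hc⟩ := H.int
  by_contra hlt
  push Not at hlt
  have hfP := H.f0 P hP
  have hfx : 0 < f x := by linarith
  have hfc := H.fpos c hc
  obtain ⟨t, ht0, ht1, ht2⟩ : ∃ t : ℝ, 0 < t ∧ t ≤ 1 ∧ t * f x ≤ f x - f P := by
    refine ⟨(f x - f P) / f x, div_pos (by linarith) hfx, ?_, ?_⟩
    · rw [div_le_one hfx]; linarith
    · rw [div_mul_cancel₀ _ hfx.ne']
  have h2 := H.fconc.2 hx (interior_subset hc) (show 0 ≤ 1 - t by linarith) ht0.le (by ring)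
  have h3 := h1 _ (H.seg_int hc hx ht0 ht1)
  simp only [smul_eq_mul] at h2
  have := mul_pos ht0 hfc
  nlinarith

/-- three distinct extreme points are affinely independent -/
theorem three_dual {P Q R : E} (hP : P ∈ B) (hQ : Q ∈ B) (hR : R ∈ B) (h1 : Q ≠ P) (h2 : R ≠ P)
    (h3 : R ≠ Q)
    (eP : ∀ a ∈ B, ∀ b ∈ B, ∀ t : ℝ, 0 < t → t < 1 → P = (1 - t) • a + t • b → a = P ∧ b = P)
    (eQ : ∀ a ∈ B, ∀ b ∈ B, ∀ t : ℝ, 0 < t → t < 1 → Q = (1 - t) • a + t • b → a = Q ∧ b = Q)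
    (eR : ∀ a ∈ B, ∀ b ∈ B, ∀ t : ℝ, 0 < t → t < 1 → R = (1 - t) • a + t • b → a = R ∧ b = R) :
    ∃ α β : E →ₗ[ℝ] ℝ, Dual α β (Q - P) (R - P) := by
  apply dual_of_det
  intro hdet
  -- `R - P = μ (Q - P)`
  obtain ⟨μ, hμ⟩ : ∃ μ : ℝ, R - P = μ • (Q - P) := by
    have hne : Q - P ≠ 0 := sub_ne_zero.2 h1
    by_cases h4 : (Q - P).1 = 0
    · have h5 : (Q - P).2 ≠ 0 := fun h5 => hne (Prod.ext h4 h5)
      refine ⟨(R - P).2 / (Q - P).2, Prod.ext ?_ ?_⟩
      · rw [Prod.smul_fst, smul_eq_mul, h4, mul_zero]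
        rw [h4] at hdet
        have : (Q - P).2 * (R - P).1 = 0 := by linarith
        exact (mul_eq_zero.1 this).resolve_left h5
      · rw [Prod.smul_snd, smul_eq_mul, div_mul_cancel₀ _ h5]
    · refine ⟨(R - P).1 / (Q - P).1, Prod.ext ?_ ?_⟩
      · rw [Prod.smul_fst, smul_eq_mul, div_mul_cancel₀ _ h4]
      · rw [Prod.smul_snd, smul_eq_mul]
        field_simp
        linarith
  have hR' : R = P + μ • (Q - P) := by rw [← hμ]; abel
  have hμ0 : μ ≠ 0 := by
    rintro rfl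
    rw [zero_smul, add_zero] at hR'
    exact h2 hR'
  have hμ1 : μ ≠ 1 := by
    rintro rfl
    rw [one_smul, add_sub_cancel] at hR'
    exact h3 hR'
  rcases lt_or_gt_of_ne hμ0 with hm | hm
  · -- `P` between `R` and `Q`
    have h4 : (0 : ℝ) < 1 - μ := by linarith
    refine h1 ((eP R hR Q hQ (-μ / (1 - μ)) (div_pos (by linarith) h4)
      (by rw [div_lt_one h4]; linarith) ?_).2)
    rw [hR']
    have e1 : 1 - -μ / (1 - μ) = 1 / (1 - μ) := by field_simp; ring
    rw [e1]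
    ext
    · simp; field_simp; ring
    · simp; field_simp; ring
  rcases lt_or_gt_of_ne hμ1 with hm1 | hm1
  · -- `R` between `P` and `Q`
    refine h2 ((eR P hP Q hQ μ hm hm1 ?_).1).symm
    conv_lhs => rw [hR']
    rw [smul_sub, sub_smul, one_smul]
    abel
  · -- `Q` between `P` and `R`
    refine h1 ((eQ P hP R hR (1 / μ) (by positivity) (by rw [div_lt_one hm]; exact hm1) ?_).1).symm
    rw [hR']
    ext
    · simp; field_simp; ring
    · simp; field_simp; ring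

/-- scheme γ applies if `f` and `h` are maximal at three different opposite corners -/
theorem gamma (H : PP B f h) (hA : ∀ P, PSet B f h P → ¬ Rim f h P) {P Q R : E}
    (hP : PSet B f h P) (hQ : PSet B f h Q) (hR : PSet B f h R) (h1 : Q ≠ P) (h2 : R ≠ P)
    (h3 : R ≠ Q) (hmax : ∀ S, PSet B f h S → (∀ x ∈ B, f x ≤ f S) ∧ (∀ x ∈ B, h x ≤ h S)) :
    Good B f h := by
  obtain ⟨α, β, hd⟩ := three_dual hP.mem hQ.mem hR.mem h1 h2 h3
    (fun a ha b hb t ht0 ht1 he => hP.extreme ha hb ht0 ht1 he)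
    (fun a ha b hb t ht0 ht1 he => hQ.extreme ha hb ht0 ht1 he)
    (fun a ha b hb t ht0 ht1 he => hR.extreme ha hb ht0 ht1 he)
  have fQ : f Q = f P := le_antisymm ((hmax P hP).1 Q hQ.mem) ((hmax Q hQ).1 P hP.mem)
  have fR : f R = f P := le_antisymm ((hmax P hP).1 R hR.mem) ((hmax R hR).1 P hP.mem)
  have gQ : h Q = h P := le_antisymm ((hmax P hP).2 Q hQ.mem) ((hmax Q hQ).2 P hP.mem)
  have gR : h R = h P := le_antisymm ((hmax P hP).2 R hR.mem) ((hmax R hR).2 P hP.mem)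
  obtain ⟨s, hs0, hs1, hd', x₁, hx₁, x₂, hx₂, hm₁, hm₂⟩ := exists_generic H.toPF hd
    (r := 1) one_pos
  obtain ⟨b', hb1, hb2⟩ := exists_b H (not_both hA hd' hx₁ hx₂ hm₁ hm₂)
  have acont := cont_lin α
  have bcont := cont_lin β
  -- the open triangle
  set U : Set E := {w | 0 < α (w - P) ∧ 0 < β (w - P) ∧ α (w - P) + β (w - P) < 1} with hU
  have hUo : IsOpen U := by
    have c1 : Continuous fun w : E => α (w - P) := by fun_prop
    have c2 : Continuous fun w : E => β (w - P) := by fun_prop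
    exact (isOpen_lt continuous_const c1).inter ((isOpen_lt continuous_const c2).inter
      (isOpen_lt (c1.add c2) continuous_const))
  have hUB : ∀ w ∈ U, w ∈ B ∧ f w = f P ∧ h w = h P := by
    rintro w ⟨i1, i2, i3⟩
    set p := α (w - P) with hp
    set q := β (w - P) with hq
    have h0 : 0 < p + q := by linarith
    have hmem : (p / (p + q)) • Q + (q / (p + q)) • R ∈ B :=
      H.conv hQ.mem hR.mem (by positivity) (by positivity) (by field_simp)
    have hw : (1 - (p + q)) • P + (p + q) • ((p / (p + q)) • Q + (q / (p + q)) • R) = w := by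
      have e1 := hd.dec (w - P)
      rw [← hp, ← hq] at e1
      have e2 : w = p • (Q - P) + q • (R - P) + P := by rw [e1]; abel
      rw [e2, smul_add, smul_smul, smul_smul, mul_div_cancel₀ _ h0.ne', mul_div_cancel₀ _ h0.ne',
        sub_smul, one_smul, add_smul, smul_sub, smul_sub]
      abel
    have hwB : w ∈ B := by
      rw [← hw]
      exact H.conv hP.mem hmem (by linarith) h0.le (by ring)
    have conc : ∀ {g : E → ℝ}, ConcaveOn ℝ B g → g Q = g P → g R = g P → g P ≤ g w := by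
      intro g hg eQ eR
      have k1 := hg.2 hQ.mem hR.mem (show 0 ≤ p / (p + q) by positivity)
        (show 0 ≤ q / (p + q) by positivity) (by field_simp)
      have k2 := hg.2 hP.mem hmem (show 0 ≤ 1 - (p + q) by linarith) h0.le (by ring)
      rw [hw] at k2
      simp only [smul_eq_mul, eQ, eR] at k1 k2
      have k3 : p / (p + q) * g P + q / (p + q) * g P = g P := by field_simp
      rw [k3] at k1
      have k4 := mul_le_mul_of_nonneg_left k1 h0.le
      linarith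
    exact ⟨hwB, le_antisymm ((hmax P hP).1 w hwB) (conc H.fconc fQ fR),
      le_antisymm ((hmax P hP).2 w hwB) (conc H.hconc gQ gR)⟩
  have hUint : U ⊆ interior B := interior_maximal (fun w hw => (hUB w hw).1) hUo
  have hP' := hP
  obtain ⟨y, l, k, u, v, O, hy⟩ := hP'
  have hmemU : P + (1 / 2 : ℝ) • (Q - P + s • (R - P)) ∈ U := by
    have e1 : α (P + (1 / 2 : ℝ) • (Q - P + s • (R - P)) - P) = 1 / 2 := by
      rw [add_sub_cancel_left, map_smul, map_add, map_smul, hd.lu, hd.lv]; simp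
    have e2 : β (P + (1 / 2 : ℝ) • (Q - P + s • (R - P)) - P) = s / 2 := by
      rw [add_sub_cancel_left, map_smul, map_add, map_smul, hd.ku, hd.kv]; simp; ring
    refine ⟨by rw [e1]; norm_num, by rw [e2]; linarith, by rw [e1, e2]; linarith⟩
  refine caseGamma H O hy hd' hx₁ hx₂ hm₁ hm₂ hb1 hb2 (hmax P hP).1 (hmax P hP).2
    (t₀ := 1 / 2) (by norm_num) ?_
  filter_upwards [hUo.mem_nhds hmemU] with w hw
  exact ⟨hUint hw, (hUB w hw).2.1, (hUB w hw).2.2⟩

theorem good_PP (H : PP B f h) : Good B f h := by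
  by_cases hD : ∀ x ∈ B, ¬ Rim f h x
  · exact caseNoRim H.toPF hD
  push Not at hD
  obtain ⟨y, hy, hr⟩ := hD
  obtain ⟨l, hl, hmax⟩ := exists_support H hy hr
  obtain ⟨P, hP, _, _⟩ := exists_PSet H.toPF hy hr hl hmax
  by_cases hA : ∃ P, PSet B f h P ∧ Rim f h P
  · obtain ⟨P, ⟨y, l, k, u, v, O, hy⟩, hrP⟩ := hA
    exact caseA H O hy hrP
  push Not at hA
  by_cases hB : ∃ Q, PSet B f h Q ∧ ∀ S, PSet B f h S → S = P ∨ S = Q
  · obtain ⟨Q, hQ, hPQ⟩ := hB
    obtain ⟨a₁, a₂, hlit⟩ := two_lit H hP.mem hQ.mem (hA P hP) (hA Q hQ) (by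
      intro z hz hrz l hl hmax
      obtain ⟨S, hS, _, hSmin⟩ := exists_PSet H.toPF hz hrz hl hmax
      rcases hPQ S hS with rfl | rfl
      · exact Or.inl hSmin
      · exact Or.inr hSmin)
    obtain ⟨y, l, k, u, v, O, hy⟩ := hP
    exact caseB H O hy hlit
  push Not at hB
  by_cases hbeta : ∃ P a, PSet B f h P ∧ IN B P a ∧ (UP B f P a 0 ∨ UP B h P a 0)
  · obtain ⟨P, a, hP, hin, hup | hup⟩ := hbeta
    · exact beta H hA hP hin hup
    · apply Good.flip
      exact beta H.flip (fun S hS hrS => hA S hS.flip hrS.flip) (PSet.flip hP) hin hup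
  push Not at hbeta
  have hmax : ∀ S, PSet B f h S → (∀ x ∈ B, f x ≤ f S) ∧ (∀ x ∈ B, h x ≤ h S) := by
    intro S hS
    exact ⟨max_of_not_up H hS.mem (fun a ha => (hbeta S a hS ha).1),
      max_of_not_up H.flip hS.mem (fun a ha => (hbeta S a hS ha).2)⟩
  obtain ⟨Q, hQ, hQP, _⟩ := hB P hP
  obtain ⟨R, hR, hRP, hRQ⟩ := hB Q hQ
  exact gamma H hA hP hQ hR (by tauto) hRP hRQ hmax

theorem good_of_PF (H : PF B f h) (hpos : ∃ x ∈ B, 0 < f x + h x) : Good B f h := by
  obtain ⟨x, hx, hxp⟩ := hpos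
  by_cases h1 : ∃ c ∈ interior B, f c = 0
  · obtain ⟨c, hc, hfc⟩ := h1
    have hf := zero_of_int H hc hfc
    refine caseFlat H hf fun c' hc' => ?_
    by_contra hle
    push Not at hle
    have h2 : h c' = 0 := le_antisymm hle (H.h0 c' (interior_subset hc'))
    have h3 := zero_of_int H.flip hc' h2
    rw [hf x hx, h3 x hx] at hxp
    simp at hxp
  by_cases h2 : ∃ c ∈ interior B, h c = 0
  · obtain ⟨c, hc, hhc⟩ := h2
    have hh := zero_of_int H.flip hc hhc
    apply Good.flip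
    refine caseFlat H.flip hh fun c' hc' => ?_
    by_contra hle
    push Not at hle
    have h3 : f c' = 0 := le_antisymm hle (H.f0 c' (interior_subset hc'))
    exact h1 ⟨c', hc', h3⟩
  push Not at h1 h2
  exact good_PP { H with
    fpos := fun x hx => lt_of_le_of_ne (H.f0 x (interior_subset hx)) (Ne.symm (h1 x hx))
    hpos := fun x hx => lt_of_le_of_ne (H.h0 x (interior_subset hx)) (Ne.symm (h2 x hx)) }

end Pool.Agent.Lib.MP_5e7226_co.PS
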