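import Pool.Agent.Lib.MP_5e7226_co.PS.Generic
import Pool.Agent.Lib.MP_5e7226_co.PS.Cases

/-! At most two opposite corners: the rim is illuminated by two horizontal directions. -/

set_option autoImplicit false

open Set Filter Topology

namespace Pool.Agent.Lib.MP_5e7226_co.PS

variable {B : Set E} {f h : E → ℝ}

theorem prop_of_common_zero {l l' : E →ₗ[ℝ] ℝ} (hl : l ≠ 0) {w : E} (hw : w ≠ 0) (h1 : l w = 0)
    (h2 : l' w = 0) : ∃ κ : ℝ, ∀ x, l' x = κ * l x := by
  obtain ⟨c, k, u, v, hc, hd⟩ := exists_dual l hl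
  have h3 := hd.dec w
  rw [LinearMap.smul_apply, h1, smul_zero, zero_smul, zero_add] at h3
  have hk : k w ≠ 0 := by
    intro h0
    rw [h0, zero_smul] at h3
    exact hw h3.symm
  have h4 : l' v = 0 := by
    have h5 : l' (k w • v) = 0 := by rw [h3]; exact h2
    rw [map_smul, smul_eq_mul] at h5
    exact (mul_eq_zero.1 h5).resolve_left hk
  refine ⟨c * l' u, fun x => ?_⟩
  have h6 := hd.dec x
  conv_lhs => rw [← h6]
  rw [map_add, map_smul, map_smul, h4, LinearMap.smul_apply]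
  simp only [smul_eq_mul]
  ring

/-- a nonzero functional is not constant: interior points are strictly below the maximum -/
theorem lt_max (H : PF B f h) {l : E →ₗ[ℝ] ℝ} (hl : l ≠ 0) {y c : E} (hmax : ∀ x ∈ B, l x ≤ l y)
    (hc : c ∈ interior B) : l c < l y := by
  obtain ⟨w, hw⟩ : ∃ w, 0 < l w := by
    by_contra hcon
    push Not at hcon
    apply hl
    apply LinearMap.ext
    intro x
    have h1 := hcon x
    have h2 := hcon (-x)
    rw [map_neg] at h2
    simp only [LinearMap.zero_apply]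
    linarith
  obtain ⟨t, ht, hin⟩ := H.in_of_int hc w
  have h1 := hmax _ (interior_subset hin)
  rw [map_add, map_smul, smul_eq_mul] at h1
  have := mul_pos ht hw
  linarith

theorem min_lt (H : PF B f h) {l : E →ₗ[ℝ] ℝ} (hl : l ≠ 0) {y c : E} (hmin : ∀ x ∈ B, l y ≤ l x)
    (hc : c ∈ interior B) : l y < l c := by
  have := lt_max H (l := -l) (neg_ne_zero.2 hl) (y := y) (fun x hx => by simpa using hmin x hx) hc
  simpa using this

/-- `P` is an opposite corner of a rim corner -/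
def PSet (B : Set E) (f h : E → ℝ) (P : E) : Prop :=
  ∃ (y : E) (l k : E →ₗ[ℝ] ℝ) (u v : E), Opp B y P l k u v ∧ Rim f h y

/-- for a rim point and a supporting functional there is an opposite corner at which the
functional is minimal -/
theorem exists_PSet (H : PF B f h) {y : E} (hy : y ∈ B) (hr : Rim f h y) {l : E →ₗ[ℝ] ℝ}
    (hl : l ≠ 0) (hmax : ∀ x ∈ B, l x ≤ l y) :
    ∃ P, PSet B f h P ∧ P ∈ B ∧ ∀ x ∈ B, l P ≤ l x := by
  obtain ⟨c, k, u, v, hc, hd⟩ := exists_dual l hl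
  obtain ⟨y1, hy1, y2, hy2, e1, e2, h1, h2, t, ht0, ht1, ht⟩ := mem_face_seg H hd hy
  have hmax' : ∀ x ∈ B, (c • l) x ≤ (c • l) y := by
    intro x hx
    simp only [LinearMap.smul_apply, smul_eq_mul]
    exact mul_le_mul_of_nonneg_left (hmax x hx) hc.le
  have hconc : (1 - t) * f y1 + t * f y2 ≤ 0 ∧ (1 - t) * h y1 + t * h y2 ≤ 0 := by
    have a1 := H.fconc.2 hy1 hy2 (show 0 ≤ 1 - t by linarith) ht0 (by ring)
    have a2 := H.hconc.2 hy1 hy2 (show 0 ≤ 1 - t by linarith) ht0 (by ring)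
    rw [← ht, hr.1] at a1
    rw [← ht, hr.2] at a2
    exact ⟨a1, a2⟩
  have f1 := H.f0 y1 hy1
  have f2 := H.f0 y2 hy2
  have g1 := H.h0 y1 hy1
  have g2 := H.h0 y2 hy2
  have fin : ∀ (y' : E) (k' : E →ₗ[ℝ] ℝ) (u' v' P : E), Opp B y' P (c • l) k' u' v' → Rim f h y' →
      ∃ P, PSet B f h P ∧ P ∈ B ∧ ∀ x ∈ B, l P ≤ l x := by
    intro y' k' u' v' P O hr'
    refine ⟨P, ⟨y', _, _, _, _, O, hr'⟩, O.Pmem, fun x hx => ?_⟩
    have := O.ge x hx
    simp only [LinearMap.smul_apply, smul_eq_mul] at this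
    exact le_of_mul_le_mul_left this hc
  rcases lt_or_eq_of_le ht1 with ht2 | ht2
  · have r1 : Rim f h y1 := by
      constructor
      · have : (1 - t) * f y1 ≤ 0 := by nlinarith [mul_nonneg ht0 f2]
        nlinarith
      · have : (1 - t) * h y1 ≤ 0 := by nlinarith [mul_nonneg ht0 g2]
        nlinarith
    obtain ⟨P, O⟩ := exists_opp H hd hy1 (fun z hz => by rw [e1]; exact hmax' z hz)
      (fun z hz hlz hne => h1 z hz (by rw [hlz, e1]) hne)
    exact fin y1 _ _ _ P O r1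
  · rw [ht2, sub_self, zero_smul, zero_add, one_smul] at ht
    subst ht
    obtain ⟨P, O⟩ := exists_opp H hd.negk hy2 (fun z hz => hmax' z hz)
      (fun z hz hlz hne => h2 z hz hlz hne)
    exact fin y _ _ _ P O hr

/-- a rim point which is not illuminated by `P - c`, `Q - c` -/
theorem unlit (H : PF B f h) {P Q c y : E}
    (hN : ∀ y ∈ B, Rim f h y → ∀ l : E →ₗ[ℝ] ℝ, l ≠ 0 → (∀ x ∈ B, l x ≤ l y) →
      (∀ x ∈ B, l P ≤ l x) ∨ (∀ x ∈ B, l Q ≤ l x))
    (hP : P ∈ B) (hQ : Q ∈ B) (hc : c ∈ interior B) (hy : y ∈ B) (hr : Rim f h y)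
    (h1 : ¬ IN B y (P - c)) (h2 : ¬ IN B y (Q - c)) :
    P ≠ Q ∧ ∃ l : E →ₗ[ℝ] ℝ, l ≠ 0 ∧ (∀ x ∈ B, l x ≤ l y) ∧ (∀ x ∈ B, l x = l y → x = y) ∧
      (∀ x ∈ B, l P ≤ l x) ∧ l P = l Q := by
  have e1 : ∃ l : E →ₗ[ℝ] ℝ, l ≠ 0 ∧ (∀ x ∈ B, l x ≤ l y) ∧ 0 ≤ l (P - c) := by
    by_contra hcon
    push Not at hcon
    exact h1 (IN_of_forall H hy hcon)
  have e2 : ∃ l : E →ₗ[ℝ] ℝ, l ≠ 0 ∧ (∀ x ∈ B, l x ≤ l y) ∧ 0 ≤ l (Q - c) := by
    by_contra hcon
    push Not at hcon
    exact h2 (IN_of_forall H hy hcon)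
  obtain ⟨l1, hl1, hm1, hp1⟩ := e1
  obtain ⟨l2, hl2, hm2, hp2⟩ := e2
  rw [map_sub] at hp1 hp2
  have q1 : ∀ x ∈ B, l1 Q ≤ l1 x := by
    rcases hN y hy hr l1 hl1 hm1 with h3 | h3
    · exact absurd (min_lt H hl1 h3 hc) (by linarith)
    · exact h3
  have q2 : ∀ x ∈ B, l2 P ≤ l2 x := by
    rcases hN y hy hr l2 hl2 hm2 with h3 | h3
    · exact h3
    · exact absurd (min_lt H hl2 h3 hc) (by linarith)
  have c1 := lt_max H hl1 hm1 hc
  have c2 := lt_max H hl2 hm2 hc
  have d1 := min_lt H hl1 q1 hc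
  have d2 := min_lt H hl2 q2 hc
  have g1 : l1 Q < l1 P := by linarith
  have g2 : l2 P < l2 Q := by linarith
  refine ⟨fun he => by rw [he] at g1; exact lt_irrefl _ g1, ?_⟩
  -- the combination
  set p : ℝ := l2 Q - l2 P with hp
  set q : ℝ := l1 P - l1 Q with hq
  have hp0 : 0 < p := by linarith
  have hq0 : 0 < q := by linarith
  have hap : ∀ x, (p • l1 + q • l2) x = p * l1 x + q * l2 x := fun x => by
    simp
  have hmax3 : ∀ x ∈ B, (p • l1 + q • l2) x ≤ (p • l1 + q • l2) y := by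
    intro x hx
    rw [hap, hap]
    have := mul_le_mul_of_nonneg_left (hm1 x hx) hp0.le
    have := mul_le_mul_of_nonneg_left (hm2 x hx) hq0.le
    linarith
  have hne3 : p • l1 + q • l2 ≠ 0 := by
    intro h0
    have a1 := congrArg (fun g : E →ₗ[ℝ] ℝ => g c) h0
    have a2 := congrArg (fun g : E →ₗ[ℝ] ℝ => g y) h0
    simp only [hap, LinearMap.zero_apply] at a1 a2
    have := mul_lt_mul_of_pos_left c1 hp0
    have := mul_lt_mul_of_pos_left c2 hq0
    linarith
  have heq3 : (p • l1 + q • l2) P = (p • l1 + q • l2) Q := by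
    rw [hap, hap, hp, hq]; ring
  refine ⟨p • l1 + q • l2, hne3, hmax3, ?_, ?_, heq3⟩
  · intro x hx hxe
    by_contra hne
    rw [hap, hap] at hxe
    have b1 := hm1 x hx
    have b2 := hm2 x hx
    have a1 : l1 x = l1 y := by
      apply le_antisymm b1
      by_contra hlt
      push Not at hlt
      have := mul_lt_mul_of_pos_left hlt hp0
      have := mul_le_mul_of_nonneg_left b2 hq0.le
      linarith
    have a2 : l2 x = l2 y := by
      rw [a1] at hxe
      have : q * l2 x = q * l2 y := by linarith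
      exact mul_left_cancel₀ hq0.ne' this
    obtain ⟨κ, hκ⟩ := prop_of_common_zero hl1 (w := x - y) (sub_ne_zero.2 hne)
      (by rw [map_sub, a1, sub_self]) (l' := l2) (by rw [map_sub, a2, sub_self])
    rw [hκ, hκ] at g2 c2
    rcases le_or_gt κ 0 with h4 | h4
    · nlinarith
    · nlinarith
  · rcases hN y hy hr _ hne3 hmax3 with h3 | h3
    · exact h3
    · intro x hx
      rw [heq3]; exact h3 x hx

theorem two_lit (H : PP B f h) {P Q : E} (hP : P ∈ B) (hQ : Q ∈ B) (hPr : ¬ Rim f h P)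
    (hQr : ¬ Rim f h Q)
    (hN : ∀ y ∈ B, Rim f h y → ∀ l : E →ₗ[ℝ] ℝ, l ≠ 0 → (∀ x ∈ B, l x ≤ l y) →
      (∀ x ∈ B, l P ≤ l x) ∨ (∀ x ∈ B, l Q ≤ l x)) :
    ∃ a₁ a₂ : E, ∀ z ∈ B, Rim f h z → IN B z a₁ ∨ IN B z a₂ := by
  obtain ⟨c, hc⟩ := H.int
  by_cases hall : ∀ z ∈ B, Rim f h z → IN B z (P - c) ∨ IN B z (Q - c)
  · exact ⟨_, _, hall⟩
  push Not at hall
  obtain ⟨y0, hy0, hr0, hn1, hn2⟩ := hall
  obtain ⟨hPQ, l3, hl3, hm3, hu3, hmin3, he3⟩ := unlit H.toPF hN hP hQ hc hy0 hr0 hn1 hn2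
  have hw : P - Q ≠ 0 := sub_ne_zero.2 hPQ
  have hw3 : l3 (P - Q) = 0 := by rw [map_sub, he3, sub_self]
  -- moving `c` so that `y0` is illuminated
  have move : ∀ R : E, IN B y0 (R - y0) → ∃ c1 ∈ interior B, IN B y0 (R - c1) := by
    intro R hR
    obtain ⟨r, hr, hh⟩ := in_open hR
    obtain ⟨δ, hδ0, hδ1, hδ2⟩ : ∃ δ : ℝ, 0 < δ ∧ δ ≤ 1 ∧ δ * ‖c - y0‖ < r := by
      refine ⟨min 1 (r / (2 * (‖c - y0‖ + 1))), lt_min one_pos (by positivity), min_le_left _ _, ?_⟩
      have h1 : min 1 (r / (2 * (‖c - y0‖ + 1))) * ‖c - y0‖ ≤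
          r / (2 * (‖c - y0‖ + 1)) * ‖c - y0‖ :=
        mul_le_mul_of_nonneg_right (min_le_right _ _) (norm_nonneg _)
      refine h1.trans_lt ?_
      rw [div_mul_eq_mul_div, div_lt_iff₀ (by positivity)]
      nlinarith [norm_nonneg (c - y0)]
    refine ⟨(1 - δ) • y0 + δ • c, H.seg_int hc hy0 hδ0 hδ1, hh _ ?_⟩
    have e : R - ((1 - δ) • y0 + δ • c) - (R - y0) = -(δ • (c - y0)) := by
      rw [smul_sub, sub_smul, one_smul]; abel
    rw [e, norm_neg, norm_smul, Real.norm_eq_abs, abs_of_pos hδ0]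
    exact hδ2
  have others : ∀ c1 ∈ interior B, (IN B y0 (P - c1) ∨ IN B y0 (Q - c1)) →
      ∃ a₁ a₂ : E, ∀ z ∈ B, Rim f h z → IN B z a₁ ∨ IN B z a₂ := by
    intro c1 hc1 hlit
    refine ⟨P - c1, Q - c1, fun z hz hrz => ?_⟩
    by_contra hcon
    push Not at hcon
    obtain ⟨_, l', hl', hm', hu', hmin', he'⟩ := unlit H.toPF hN hP hQ hc1 hz hrz hcon.1 hcon.2
    have hne : y0 ≠ z := by
      intro he
      subst he
      rcases hlit with h1 | h1
      · exact hcon.1 h1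
      · exact hcon.2 h1
    obtain ⟨κ, hκ⟩ := prop_of_common_zero hl3 hw hw3 (l' := l')
      (by rw [map_sub, he', sub_self])
    have b1 := hmin3 z hz
    have b2 : l' P < l' z := lt_trans (min_lt H.toPF hl' hmin' hc1) (lt_max H.toPF hl' hm' hc1)
    have b3 : l' y0 < l' z := lt_of_le_of_ne (hm' y0 hy0) fun he => hne (hu' y0 hy0 he)
    have b4 := hm3 z hz
    rw [hκ, hκ] at b2 b3
    rcases le_or_gt κ 0 with h4 | h4
    · nlinarith
    · nlinarith
  by_cases hQin : IN B y0 (Q - y0)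
  · obtain ⟨c1, hc1, hh⟩ := move Q hQin
    exact others c1 hc1 (Or.inr hh)
  by_cases hPin : IN B y0 (P - y0)
  · obtain ⟨c1, hc1, hh⟩ := move P hPin
    exact others c1 hc1 (Or.inl hh)
  -- the triangle case
  have e4 : ∃ l : E →ₗ[ℝ] ℝ, l ≠ 0 ∧ (∀ x ∈ B, l x ≤ l y0) ∧ 0 ≤ l (Q - y0) := by
    by_contra hcon
    push Not at hcon
    exact hQin (IN_of_forall H.toPF hy0 hcon)
  have e5 : ∃ l : E →ₗ[ℝ] ℝ, l ≠ 0 ∧ (∀ x ∈ B, l x ≤ l y0) ∧ 0 ≤ l (P - y0) := by
    by_contra hcon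
    push Not at hcon
    exact hPin (IN_of_forall H.toPF hy0 hcon)
  obtain ⟨l4, hl4, hm4, hq4⟩ := e4
  obtain ⟨l5, hl5, hm5, hq5⟩ := e5
  rw [map_sub] at hq4 hq5
  have hQ4 : l4 Q = l4 y0 := le_antisymm (hm4 Q hQ) (by linarith)
  have hP5 : l5 P = l5 y0 := le_antisymm (hm5 P hP) (by linarith)
  have c4 := lt_max H.toPF hl4 hm4 hc
  have c5 := lt_max H.toPF hl5 hm5 hc
  have hP4 : l4 P < l4 y0 := by
    rcases hN y0 hy0 hr0 l4 hl4 hm4 with h3 | h3
    · exact (min_lt H.toPF hl4 h3 hc).trans c4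
    · have := min_lt H.toPF hl4 h3 hc
      linarith
  have hQ5 : l5 Q < l5 y0 := by
    rcases hN y0 hy0 hr0 l5 hl5 hm5 with h3 | h3
    · have := min_lt H.toPF hl5 h3 hc
      linarith
    · exact (min_lt H.toPF hl5 h3 hc).trans c5
  have c3 := lt_max H.toPF hl3 hm3 hc
  have d3 := min_lt H.toPF hl3 hmin3 hc
  have hrim : ∀ z ∈ B, Rim f h z → z = y0 := by
    intro z hz hrz
    obtain ⟨s, hs⟩ : ∃ s, s * (l4 P - l4 y0) = l4 z - l4 y0 :=
      ⟨(l4 z - l4 y0) / (l4 P - l4 y0), div_mul_cancel₀ _ (by linarith)⟩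
    obtain ⟨t, ht⟩ : ∃ t, t * (l5 Q - l5 y0) = l5 z - l5 y0 :=
      ⟨(l5 z - l5 y0) / (l5 Q - l5 y0), div_mul_cancel₀ _ (by linarith)⟩
    have hdec : z - y0 - s • (P - y0) - t • (Q - y0) = 0 := by
      by_contra hne
      obtain ⟨κ, hκ⟩ := prop_of_common_zero hl4 hne (l' := l5)
        (by simp only [map_sub, map_smul, smul_eq_mul, hQ4]; linarith)
        (by simp only [map_sub, map_smul, smul_eq_mul, hP5]; linarith)
      rw [hκ, hκ, hQ4] at hQ5
      exact lt_irrefl _ hQ5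
    have hs0 : 0 ≤ s := by
      by_contra hlt
      push Not at hlt
      have := hm4 z hz
      nlinarith
    have ht0 : 0 ≤ t := by
      by_contra hlt
      push Not at hlt
      have := hm5 z hz
      nlinarith
    have hz3 : l3 z - l3 y0 = (s + t) * (l3 P - l3 y0) := by
      have := congrArg (fun q : E => l3 q) hdec
      simp only [map_sub, map_smul, smul_eq_mul, map_zero, ← he3] at this
      linarith
    have hst : s + t ≤ 1 := by
      by_contra hlt
      push Not at hlt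
      have := hmin3 z hz
      nlinarith
    have hze : z = (1 - s - t) • y0 + s • P + t • Q := by
      have : z = z - y0 - s • (P - y0) - t • (Q - y0) + ((1 - s - t) • y0 + s • P + t • Q) := by
        simp only [smul_sub, sub_smul, one_smul]
        abel
      rw [hdec, zero_add] at this
      exact this
    have conc : ∀ {g : E → ℝ}, ConcaveOn ℝ B g → (∀ x ∈ B, 0 ≤ g x) → g z = 0 →
        s * g P + t * g Q ≤ 0 := by
      intro g hg hg0 hgz
      rcases eq_or_lt_of_le (show 0 ≤ s + t by linarith) with h0 | h0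
      · have hs' : s = 0 := by linarith
        have ht' : t = 0 := by linarith
        rw [hs', ht']; simp
      · have hmem : (s / (s + t)) • P + (t / (s + t)) • Q ∈ B :=
          H.conv hP hQ (by positivity) (by positivity) (by field_simp)
        have k1 := hg.2 hP hQ (show 0 ≤ s / (s + t) by positivity)
          (show 0 ≤ t / (s + t) by positivity) (by field_simp)
        have k2 := hg.2 hy0 hmem (show 0 ≤ 1 - (s + t) by linarith) h0.le (by ring)
        have k3 : (1 - (s + t)) • y0 + (s + t) • ((s / (s + t)) • P + (t / (s + t)) • Q) = z := by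
          rw [hze, smul_add, smul_smul, smul_smul, mul_div_cancel₀ _ h0.ne',
            mul_div_cancel₀ _ h0.ne', ← add_assoc, sub_add_eq_sub_sub]
        rw [k3, hgz] at k2
        simp only [smul_eq_mul] at k1 k2
        have k4 := hg0 y0 hy0
        have k5 : (s + t) * (s / (s + t) * g P + t / (s + t) * g Q) = s * g P + t * g Q := by
          field_simp
        have k6 := mul_le_mul_of_nonneg_left k1 h0.le
        have k7 := mul_nonneg (show 0 ≤ 1 - (s + t) by linarith) k4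
        linarith
    have k1 := conc H.fconc H.f0 hrz.1
    have k2 := conc H.hconc H.h0 hrz.2
    have nP := not_rim H.toPF hP hPr
    have nQ := not_rim H.toPF hQ hQr
    have k3 : s * (f P + h P) + t * (f Q + h Q) ≤ 0 := by linarith
    have k4 := mul_nonneg hs0 nP.le
    have k5 := mul_nonneg ht0 nQ.le
    have hs' : s = 0 := by
      by_contra hne
      have := mul_pos (lt_of_le_of_ne hs0 (Ne.symm hne)) nP
      linarith
    have ht' : t = 0 := by
      by_contra hne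
      have := mul_pos (lt_of_le_of_ne ht0 (Ne.symm hne)) nQ
      linarith
    rw [hze, hs', ht']
    simp
  refine ⟨c - y0, c - y0, fun z hz hrz => ?_⟩
  rw [hrim z hz hrz]
  exact Or.inl (in_center H.toPF hc)

end Pool.Agent.Lib.MP_5e7226_co.PS
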